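import Pool.Agent.Q286.BD.Spec

set_option autoImplicit false

/-!
Shift of vertical lines, polynomial growth against almost exponential decay,
the Laplace transform of a weight is entire.
-/

namespace Pool.Agent.Q237.BD

open Complex MeasureTheory Filter Topology Set
open Pool.Agent.Q286.BD

theorem integrable_bd {M : ℝ} : Integrable (fun K : ℝ => M / (1 + K ^ 2)) := by
  have := (integrable_inv_one_add_sq).const_mul M
  refine this.congr (Eventually.of_forall fun K => ?_)
  simp [div_eq_mul_inv]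

/-- integrability on a vertical line -/
theorem vint {F : ℂ → ℂ} {c M : ℝ} (hc : ContinuousOn F {z : ℂ | z.re = c})
    (hb : ∀ z : ℂ, z.re = c → ‖F z‖ ≤ M / (1 + z.im ^ 2)) :
    Integrable (fun K : ℝ => F (c + K * I)) := by
  have hcont : Continuous (fun K : ℝ => F ((c : ℂ) + K * I)) := by
    refine hc.comp_continuous (by fun_prop) ?_
    intro K
    simp
  refine Integrable.mono' (integrable_bd (M := M)) hcont.aestronglyMeasurable ?_
  refine Eventually.of_forall fun K => ?_
  have := hb ((c : ℂ) + K * I) (by simp)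
  simpa using this

/-- shift of a vertical line -/
theorem vshift {F : ℂ → ℂ} {a b M : ℝ} (hab : a ≤ b) (S : Set ℂ) (hS : S.Countable)
    (hc : ContinuousOn F {z : ℂ | a ≤ z.re ∧ z.re ≤ b})
    (hd : ∀ z : ℂ, a < z.re → z.re < b → z ∉ S → DifferentiableAt ℂ F z)
    (hb : ∀ z : ℂ, a ≤ z.re → z.re ≤ b → ‖F z‖ ≤ M / (1 + z.im ^ 2)) :
    ∫ K : ℝ, F (a + K * I) = ∫ K : ℝ, F (b + K * I) := by
  have hia : Integrable (fun K : ℝ => F ((a : ℂ) + K * I)) := by
    refine vint (M := M) (hc.mono ?_) ?_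
    · intro z hz
      simp only [mem_setOf_eq] at hz ⊢
      constructor <;> linarith
    · intro z hz
      exact hb z (by linarith) (by linarith)
  have hib : Integrable (fun K : ℝ => F ((b : ℂ) + K * I)) := by
    refine vint (M := M) (hc.mono ?_) ?_
    · intro z hz
      simp only [mem_setOf_eq] at hz ⊢
      constructor <;> linarith
    · intro z hz
      exact hb z (by linarith) (by linarith)
  have T1 : Tendsto (fun X : ℝ => ∫ y in (-X)..X, F ((a : ℂ) + (y : ℂ) * I)) atTop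
      (𝓝 (∫ y : ℝ, F ((a : ℂ) + (y : ℂ) * I))) :=
    intervalIntegral_tendsto_integral hia tendsto_neg_atTop_atBot tendsto_id
  have T2 : Tendsto (fun X : ℝ => ∫ y in (-X)..X, F ((b : ℂ) + (y : ℂ) * I)) atTop
      (𝓝 (∫ y : ℝ, F ((b : ℂ) + (y : ℂ) * I))) :=
    intervalIntegral_tendsto_integral hib tendsto_neg_atTop_atBot tendsto_id
  have hlim : Tendsto (fun X : ℝ => M / (1 + X ^ 2) * |b - a|) atTop (𝓝 0) := by
    have h1 : Tendsto (fun X : ℝ => 1 + X ^ 2) atTop atTop :=
      tendsto_atTop_add_const_left _ _ (tendsto_pow_atTop (by norm_num))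
    have h2 : Tendsto (fun X : ℝ => M / (1 + X ^ 2)) atTop (𝓝 0) := h1.const_div_atTop M
    simpa using h2.mul_const (|b - a|)
  have hv : ∀ X : ℝ, ‖∫ x in a..b, F ((x : ℂ) + (X : ℂ) * I)‖ ≤ M / (1 + X ^ 2) * |b - a| := by
    intro X
    apply intervalIntegral.norm_integral_le_of_norm_le_const
    intro x hx
    rw [Set.uIoc_of_le hab] at hx
    have := hb ((x : ℂ) + (X : ℂ) * I) (by simpa using hx.1.le) (by simpa using hx.2)
    simpa using this
  have T3 : Tendsto (fun X : ℝ => ∫ x in a..b, F ((x : ℂ) + (X : ℂ) * I)) atTop (𝓝 0) :=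
    squeeze_zero_norm hv hlim
  have T4 : Tendsto (fun X : ℝ => ∫ x in a..b, F ((x : ℂ) + ((-X : ℝ) : ℂ) * I)) atTop (𝓝 0) := by
    refine squeeze_zero_norm (fun X => ?_) hlim
    have := hv (-X)
    rwa [neg_sq] at this
  have hzero : ∀ X : ℝ, 0 < X →
      (∫ x in a..b, F ((x : ℂ) + ((-X : ℝ) : ℂ) * I)) -
      (∫ x in a..b, F ((x : ℂ) + (X : ℂ) * I)) +
      I • (∫ y in (-X)..X, F ((b : ℂ) + (y : ℂ) * I)) -
      I • (∫ y in (-X)..X, F ((a : ℂ) + (y : ℂ) * I)) = 0 := by
    intro X hX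
    have hXX : -X ≤ X := by linarith
    have := Complex.integral_boundary_rect_eq_zero_of_differentiable_on_off_countable F
      (⟨a, -X⟩ : ℂ) (⟨b, X⟩ : ℂ) S hS ?_ ?_
    · simpa only using this
    · refine hc.mono ?_
      intro t ht
      rw [Complex.mem_reProdIm] at ht
      have h2 := ht.1
      simp only [Set.uIcc_of_le hab] at h2
      exact ⟨h2.1, h2.2⟩
    · intro t ht
      have ht1 := ht.1
      rw [Complex.mem_reProdIm] at ht1
      have h2 := ht1.1
      simp only [min_eq_left hab, max_eq_right hab] at h2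
      exact hd t h2.1 h2.2 ht.2
  have TT := ((T4.sub T3).add (T2.const_smul I)).sub (T1.const_smul I)
  have TZ : Tendsto (fun X : ℝ => (0 : ℂ)) atTop
      (𝓝 ((0 : ℂ) - 0 + I • (∫ y : ℝ, F ((b : ℂ) + (y : ℂ) * I)) -
        I • (∫ y : ℝ, F ((a : ℂ) + (y : ℂ) * I)))) := by
    refine TT.congr' ?_
    filter_upwards [Filter.eventually_gt_atTop (0 : ℝ)] with X hX
    exact hzero X hX
  have h0 := tendsto_nhds_unique TZ tendsto_const_nhds
  rw [sub_zero, zero_add, ← smul_sub, smul_eq_zero] at h0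
  have h1 : (∫ y : ℝ, F ((b : ℂ) + (y : ℂ) * I)) - (∫ y : ℝ, F ((a : ℂ) + (y : ℂ) * I)) = 0 := by
    rcases h0 with h0 | h0
    · exact absurd h0 I_ne_zero
    · exact h0
  exact (sub_eq_zero.mp h1).symm

/-- polynomial growth against almost exponential decay -/
theorem growth (A p c β : ℝ) (hc : 0 < c) (hβ : 0 < β) (hA : 0 ≤ A) (hp : 0 ≤ p) :
    ∃ M : ℝ, 0 < M ∧ ∀ K : ℝ, (A + |K|) ^ p * Real.exp (-(c * |K| ^ β)) ≤ M / (1 + K ^ 2) := by
  have h1 : Tendsto (fun x : ℝ => x ^ ((p + 2) / β) * Real.exp (-c * x)) atTop (𝓝 0) :=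
    tendsto_rpow_mul_exp_neg_mul_atTop_nhds_zero _ _ hc
  have h2 : Tendsto (fun x : ℝ => x ^ β) atTop atTop := tendsto_rpow_atTop hβ
  have h3 := h1.comp h2
  have h4 : ∀ᶠ x : ℝ in atTop, x ^ (p + 2) * Real.exp (-(c * x ^ β)) ≤ 1 := by
    have h5 : ∀ᶠ x : ℝ in atTop, (fun x : ℝ => x ^ ((p + 2) / β) * Real.exp (-c * x)) (x ^ β) < 1 :=
      h3.eventually (gt_mem_nhds one_pos)
    filter_upwards [h5, eventually_gt_atTop 0] with x hx hx0
    have h6 : (x ^ β) ^ ((p + 2) / β) = x ^ (p + 2) := by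
      rw [← Real.rpow_mul hx0.le]
      congr 1
      field_simp
    simp only [h6] at hx
    have h7 : -c * x ^ β = -(c * x ^ β) := by ring
    rw [h7] at hx
    exact hx.le
  obtain ⟨X, hX⟩ := eventually_atTop.1 h4
  set R : ℝ := max (max X A) 1 with hR
  have hR1 : 1 ≤ R := le_max_right _ _
  have hRX : X ≤ R := (le_max_left _ _).trans (le_max_left _ _)
  have hRA : A ≤ R := (le_max_right _ _).trans (le_max_left _ _)
  have hR0 : 0 < R := by linarith
  refine ⟨(2 * R) ^ p * (1 + R ^ 2) + 2 ^ p * 2, by positivity, fun K => ?_⟩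
  rw [le_div_iff₀ (by positivity)]
  have hK0 : 0 ≤ |K| := abs_nonneg K
  rcases le_total (|K|) R with hK | hK
  · have e1 : (A + |K|) ^ p ≤ (2 * R) ^ p := Real.rpow_le_rpow (by positivity) (by linarith) hp
    have e2 : Real.exp (-(c * |K| ^ β)) ≤ 1 := by
      rw [Real.exp_le_one_iff]
      have : 0 ≤ c * |K| ^ β := by positivity
      linarith
    have e3 : 1 + K ^ 2 ≤ 1 + R ^ 2 := by
      have : K ^ 2 ≤ R ^ 2 := by
        rw [← sq_abs K]
        exact pow_le_pow_left₀ hK0 hK 2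
      linarith
    calc (A + |K|) ^ p * Real.exp (-(c * |K| ^ β)) * (1 + K ^ 2)
        ≤ (2 * R) ^ p * 1 * (1 + R ^ 2) := by gcongr
      _ ≤ (2 * R) ^ p * (1 + R ^ 2) + 2 ^ p * 2 := by
          have : (0 : ℝ) ≤ 2 ^ p * 2 := by positivity
          linarith
  · have hK1 : 1 ≤ |K| := by linarith
    have hKp : 0 < |K| := by linarith
    have e1 : (A + |K|) ^ p ≤ 2 ^ p * |K| ^ p := by
      rw [← Real.mul_rpow (by norm_num) hK0]
      exact Real.rpow_le_rpow (by positivity) (by linarith) hp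
    have e2 := hX (|K|) (by linarith)
    have e3 : 1 + K ^ 2 ≤ 2 * |K| ^ (2 : ℝ) := by
      have h8 : |K| ^ (2 : ℝ) = K ^ 2 := by
        rw [Real.rpow_two, sq_abs]
      rw [h8]
      have : 1 ≤ K ^ 2 := by
        rw [← sq_abs K]
        exact one_le_pow₀ hK1
      linarith
    have e4 : |K| ^ (p + 2) = |K| ^ p * |K| ^ (2 : ℝ) := Real.rpow_add hKp _ _
    calc (A + |K|) ^ p * Real.exp (-(c * |K| ^ β)) * (1 + K ^ 2)
        ≤ 2 ^ p * |K| ^ p * Real.exp (-(c * |K| ^ β)) * (2 * |K| ^ (2 : ℝ)) := by gcongr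
      _ = 2 ^ p * 2 * (|K| ^ (p + 2) * Real.exp (-(c * |K| ^ β))) := by
          rw [e4]
          ring
      _ ≤ 2 ^ p * 2 * 1 := by gcongr
      _ ≤ (2 * R) ^ p * (1 + R ^ 2) + 2 ^ p * 2 := by
          have : (0 : ℝ) ≤ (2 * R) ^ p * (1 + R ^ 2) := by positivity
          linarith

/-! ## the weight -/

theorem wt_int {β : ℝ} {φ : ℝ → ℝ} (h : Wt β φ) : Integrable φ := by
  obtain ⟨ε, hε, hs⟩ := h.supp
  apply h.cont.integrable_of_hasCompactSupport
  apply HasCompactSupport.intro (isCompact_Icc (a := ε) (b := 1))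
  intro x hx
  by_contra hne
  exact hx (hs x hne)

theorem Lap_diff {β : ℝ} {φ : ℝ → ℝ} (h : Wt β φ) : Differentiable ℂ (Lap φ) := by
  intro z0
  obtain ⟨ε, hε, hs⟩ := h.supp
  have hφ := wt_int h
  have key := hasDerivAt_integral_of_dominated_loc_of_deriv_le (𝕜 := ℂ) (μ := volume)
    (F := fun (z : ℂ) (u : ℝ) => (φ u : ℂ) * cexp (z * u))
    (F' := fun (z : ℂ) (u : ℝ) => (φ u : ℂ) * (cexp (z * u) * u))
    (x₀ := z0) (s := Metric.ball z0 1) (bound := fun u => |φ u| * Real.exp (‖z0‖ + 1))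
    (Metric.ball_mem_nhds z0 one_pos) ?_ ?_ ?_ ?_ ?_ ?_
  · exact key.2.differentiableAt
  · refine Eventually.of_forall fun z => ?_
    have hc := h.cont
    exact (by fun_prop : Continuous fun u : ℝ => (φ u : ℂ) * cexp (z * u)).aestronglyMeasurable
  · refine Integrable.mono' (hφ.norm.mul_const (Real.exp ‖z0‖)) ?_ ?_
    · have hc := h.cont
      exact (by fun_prop : Continuous fun u : ℝ => (φ u : ℂ) * cexp (z0 * u)).aestronglyMeasurable
    · refine Eventually.of_forall fun u => ?_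
      by_cases hu : φ u = 0
      · simp [hu]
      · have hu1 := hs u hu
        rw [norm_mul, Complex.norm_real, Complex.norm_exp]
        gcongr
        have h1 : (z0 * (u : ℂ)).re = z0.re * u := by simp
        rw [h1]
        have h2 : z0.re ≤ ‖z0‖ := Complex.re_le_norm z0
        have h3 : 0 ≤ ‖z0‖ := norm_nonneg _
        have h4 : 0 ≤ u := by linarith
        calc z0.re * u ≤ ‖z0‖ * u := by gcongr
          _ ≤ ‖z0‖ * 1 := by
              apply mul_le_mul_of_nonneg_left hu1.2 h3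
          _ = ‖z0‖ := mul_one _
  · have hc := h.cont
    exact (by fun_prop : Continuous fun u : ℝ => (φ u : ℂ) * (cexp (z0 * u) * u)).aestronglyMeasurable
  · refine Eventually.of_forall fun u z hz => ?_
    by_cases hu : φ u = 0
    · simp [hu]
    · have hu1 := hs u hu
      have h4 : 0 ≤ u := by linarith
      have hz1 : ‖z‖ ≤ ‖z0‖ + 1 := by
        have h5 : ‖z - z0‖ < 1 := by simpa [dist_eq_norm] using hz
        have h6 : ‖z‖ ≤ ‖z - z0‖ + ‖z0‖ := by
          have := norm_add_le (z - z0) z0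
          simpa using this
        linarith
      rw [norm_mul, norm_mul, Complex.norm_real, Complex.norm_exp, Complex.norm_real, Real.norm_eq_abs,
        Real.norm_eq_abs, abs_of_nonneg h4]
      have h1 : (z * (u : ℂ)).re = z.re * u := by simp
      rw [h1]
      have h7 : z.re * u ≤ ‖z0‖ + 1 := by
        have h2 : z.re ≤ ‖z‖ := Complex.re_le_norm z
        calc z.re * u ≤ (‖z0‖ + 1) * u := by
              apply mul_le_mul_of_nonneg_right (by linarith) h4
          _ ≤ (‖z0‖ + 1) * 1 := by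
              apply mul_le_mul_of_nonneg_left hu1.2 (by positivity)
          _ = ‖z0‖ + 1 := mul_one _
      have h8 : Real.exp (z.re * u) * u ≤ Real.exp (‖z0‖ + 1) * 1 := by
        apply mul_le_mul (Real.exp_le_exp.2 h7) hu1.2 h4 (Real.exp_pos _).le
      rw [mul_one] at h8
      exact mul_le_mul_of_nonneg_left h8 (abs_nonneg _)
  · exact (hφ.norm.mul_const _)
  · refine Eventually.of_forall fun u z hz => ?_
    have h1 : HasDerivAt (fun z : ℂ => z * (u : ℂ)) (u : ℂ) z := by
      simpa using (hasDerivAt_id z).mul_const (u : ℂ)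
    have h2 := h1.cexp
    exact h2.const_mul _

end Pool.Agent.Q237.BD
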