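import Pool.Agent.Q237.BD.Vert

set_option autoImplicit false

/-!
Job P5 (a): Laplace inversion.
-/

namespace Pool.Agent.Q237.BD

open Complex MeasureTheory Filter Topology Set
open Pool.Agent.Q286.BD
open scoped FourierTransform Real

theorem lap_bound {β : ℝ} {φ : ℝ → ℝ} (hβ : 0 < β) (h : Wt β φ) :
    ∃ M : ℝ, 0 < M ∧ ∀ K : ℝ, ‖Lap φ (1 + K * I)‖ ≤ M / (1 + K ^ 2) := by
  obtain ⟨ε, C1, c, hε, hC1, hc, hdec⟩ := h.dec
  obtain ⟨M, hM, hgr⟩ := growth 1 0 c β hc hβ (by norm_num) le_rfl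
  refine ⟨C1 * Real.exp 1 * M, by positivity, fun K => ?_⟩
  refine (hdec _).trans ?_
  have h1 : ((1 : ℂ) + K * I).re = 1 := by simp
  have h2 : ((1 : ℂ) + K * I).im = K := by simp
  rw [h1, h2]
  have h3 : max (1 : ℝ) 0 - ε * max (-1 : ℝ) 0 - c * |K| ^ β = 1 + -(c * |K| ^ β) := by
    rw [max_eq_left (by norm_num : (0 : ℝ) ≤ 1), max_eq_right (by norm_num : (-1 : ℝ) ≤ 0)]
    ring
  rw [h3, Real.exp_add]
  have h4 := hgr K
  rw [Real.rpow_zero, one_mul] at h4
  calc C1 * (Real.exp 1 * Real.exp (-(c * |K| ^ β))) = C1 * Real.exp 1 * Real.exp (-(c * |K| ^ β)) := by ring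
    _ ≤ C1 * Real.exp 1 * (M / (1 + K ^ 2)) := by gcongr
    _ = _ := by ring

theorem lap_line {β : ℝ} {φ : ℝ → ℝ} (hβ : 0 < β) (h : Wt β φ) :
    Integrable (fun K : ℝ => Lap φ (1 + K * I)) := by
  obtain ⟨M, hM, hb⟩ := lap_bound hβ h
  refine Integrable.mono' (integrable_bd (M := M)) ?_ (Eventually.of_forall hb)
  have hc := (Lap_diff h).continuous
  exact (by fun_prop : Continuous fun K : ℝ => Lap φ (1 + K * I)).aestronglyMeasurable

theorem inversion {β : ℝ} {φ : ℝ → ℝ} (hβ : 0 < β) (h : Wt β φ) (v : ℝ) :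
    1 / (2 * (Real.pi : ℂ)) * ∫ K : ℝ, Lap φ (1 + K * I) * cexp (-((1 + K * I) * v)) = φ v := by
  set Φ : ℝ → ℂ := fun u => (φ u : ℂ) * cexp u with hΦ
  have hc := h.cont
  have hΦc : Continuous Φ := by
    rw [hΦ]
    fun_prop
  obtain ⟨ε, hε, hs⟩ := h.supp
  have hΦi : Integrable Φ := by
    apply hΦc.integrable_of_hasCompactSupport
    apply HasCompactSupport.intro (isCompact_Icc (a := ε) (b := 1))
    intro x hx
    have h0 : φ x = 0 := by
      by_contra hne
      exact hx (hs x hne)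
    simp [hΦ, h0]
  have hF : ∀ w : ℝ, 𝓕 Φ w = Lap φ (1 + ((-(2 * π * w) : ℝ) : ℂ) * I) := by
    intro w
    rw [Real.fourier_real_eq_integral_exp_smul]
    unfold Lap
    congr 1
    ext u
    rw [hΦ, smul_eq_mul]
    have : cexp ((1 + ((-(2 * π * w) : ℝ) : ℂ) * I) * u) = cexp (((-2 * π * u * w : ℝ) : ℂ) * I) * cexp u := by
      rw [← Complex.exp_add]
      congr 1
      push_cast
      ring
    rw [this]
    ring
  have hline := lap_line hβ h
  have hFi : Integrable (𝓕 Φ) := by
    have h1 : (𝓕 Φ) = fun w : ℝ => (fun K : ℝ => Lap φ (1 + K * I)) ((-(2 * π)) * w) := by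
      ext w
      rw [hF w]
      simp only
      congr 3
      push_cast
      ring
    rw [h1]
    exact hline.comp_mul_left' (by
      have := Real.pi_pos
      linarith)
  have hinv := congrFun (hΦc.fourierInv_fourier_eq hΦi hFi) v
  rw [Real.fourierInv_eq'] at hinv
  have h2 : ∫ w : ℝ, cexp (((2 * π * inner ℝ w v : ℝ) : ℂ) * I) • 𝓕 Φ w =
      ∫ w : ℝ, (fun K : ℝ => cexp (-(K * v * I)) * Lap φ (1 + K * I)) ((-(2 * π)) * w) := by
    congr 1
    ext w
    rw [hF w, smul_eq_mul]
    simp only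
    have e1 : (inner ℝ w v : ℝ) = w * v := by
      simp [mul_comm]
    rw [e1]
    congr 1
    · congr 1
      push_cast
      ring
    · congr 3
      push_cast
      ring
  rw [h2, Measure.integral_comp_mul_left (fun K : ℝ => cexp (-(K * v * I)) * Lap φ (1 + K * I)) (-(2 * π))] at hinv
  have h3 : |(-(2 * π))⁻¹| = 1 / (2 * π) := by
    rw [abs_inv, abs_neg, abs_of_pos (by positivity)]
    simp
  rw [h3] at hinv
  have h4 : ∫ K : ℝ, Lap φ (1 + K * I) * cexp (-((1 + K * I) * v)) =
      (∫ K : ℝ, cexp (-(K * v * I)) * Lap φ (1 + K * I)) * cexp (-v) := by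
    rw [← integral_mul_const]
    congr 1
    ext K
    have : cexp (-((1 + K * I) * v)) = cexp (-(K * v * I)) * cexp (-v) := by
      rw [← Complex.exp_add]
      congr 1
      ring
    rw [this]
    ring
  rw [h4, ← mul_assoc]
  have h5 : (1 / (2 * (π : ℂ)) * ∫ K : ℝ, cexp (-(K * v * I)) * Lap φ (1 + K * I)) = Φ v := by
    rw [← hinv, Complex.real_smul]
    push_cast
    ring
  rw [h5, hΦ]
  simp only
  rw [mul_assoc, ← Complex.exp_add]
  simp

/-! ## Laplace integrals of powers -/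

theorem pow_exp_hasDeriv (w : ℂ) (j : ℕ) (v : ℝ) :
    HasDerivAt (fun v : ℝ => cexp (-(w * v)) * ∑ i ∈ Finset.range (j + 1), (w * v) ^ i / (i.factorial : ℂ))
      (-w * (cexp (-(w * v)) * ((w * v) ^ j / (j.factorial : ℂ)))) v := by
  have hv : HasDerivAt (fun v : ℝ => w * (v : ℂ)) w v := by
    simpa using (Complex.ofRealCLM.hasDerivAt (x := v)).const_mul w
  have he : HasDerivAt (fun v : ℝ => cexp (-(w * v))) (cexp (-(w * v)) * -w) v := hv.neg.cexp
  induction j with
  | zero =>
    simp only [zero_add, Finset.sum_range_one, pow_zero, Nat.factorial_zero, Nat.cast_one, div_one, mul_one]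
    refine he.congr_deriv ?_
    ring
  | succ j ih =>
    have e1 : (fun v : ℝ => cexp (-(w * v)) * ∑ i ∈ Finset.range (j + 1 + 1), (w * v) ^ i / (i.factorial : ℂ)) =
        fun v : ℝ => cexp (-(w * v)) * ∑ i ∈ Finset.range (j + 1), (w * v) ^ i / (i.factorial : ℂ) +
          cexp (-(w * v)) * ((w * v) ^ (j + 1) / ((j + 1).factorial : ℂ)) := by
      ext v
      rw [Finset.sum_range_succ]
      ring
    rw [e1]
    have h2 : HasDerivAt (fun v : ℝ => (w * (v : ℂ)) ^ (j + 1) / ((j + 1).factorial : ℂ))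
        (((j + 1 : ℕ) : ℂ) * (w * v) ^ j * w / ((j + 1).factorial : ℂ)) v := by
      have := hv.pow (j + 1)
      simp only [Nat.add_sub_cancel] at this
      exact this.div_const _
    have h3 := ih.add (he.mul h2)
    refine h3.congr_deriv ?_
    have hf : ((j + 1).factorial : ℂ) = ((j + 1 : ℕ) : ℂ) * (j.factorial : ℂ) := by
      rw [Nat.factorial_succ]
      push_cast
      ring
    have hf1 : ((j + 1 : ℕ) : ℂ) ≠ 0 := by exact_mod_cast Nat.succ_ne_zero j
    have hf2 : (j.factorial : ℂ) ≠ 0 := by exact_mod_cast Nat.factorial_ne_zero j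
    rw [hf]
    field_simp
    ring

theorem pow_exp_tendsto {w : ℂ} (hw : 0 < w.re) (i : ℕ) :
    Tendsto (fun v : ℝ => cexp (-(w * v)) * ((w * v) ^ i / (i.factorial : ℂ))) atTop (𝓝 0) := by
  have h1 : Tendsto (fun v : ℝ => v ^ ((i : ℕ) : ℝ) * Real.exp (-w.re * v)) atTop (𝓝 0) :=
    tendsto_rpow_mul_exp_neg_mul_atTop_nhds_zero _ _ hw
  have h2 := h1.const_mul (‖w‖ ^ i / (i.factorial : ℝ))
  rw [mul_zero] at h2
  rw [tendsto_zero_iff_norm_tendsto_zero]
  refine h2.congr' ?_
  filter_upwards [eventually_gt_atTop 0] with v hv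
  rw [norm_mul, norm_div, norm_pow, norm_mul, Complex.norm_exp, Complex.norm_real, Real.norm_eq_abs, abs_of_pos hv,
    Complex.norm_natCast, Real.rpow_natCast]
  have : (-(w * (v : ℂ))).re = -w.re * v := by simp
  rw [this, mul_pow]
  ring

theorem pow_exp_int {b : ℝ} (hb : 0 < b) (i : ℕ) :
    IntegrableOn (fun v : ℝ => v ^ i * Real.exp (-(b * v))) (Ioi 0) := by
  refine integrable_of_isBigO_exp_neg (b := b / 2) (by positivity) (by fun_prop) ?_
  have h1 : (fun v : ℝ => v ^ i) =o[atTop] (fun v : ℝ => Real.exp ((b / 2) * v)) :=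
    isLittleO_pow_exp_pos_mul_atTop i (by positivity)
  have h2 := h1.isBigO.mul (Asymptotics.isBigO_refl (fun v : ℝ => Real.exp (-(b * v))) atTop)
  refine h2.trans (Asymptotics.IsBigO.of_bound 1 (Eventually.of_forall fun v => ?_))
  rw [one_mul, ← Real.exp_add]
  have : b / 2 * v + -(b * v) = -(b / 2) * v := by ring
  rw [this]

theorem cpow_exp_int {w : ℂ} (hw : 0 < w.re) (c : ℂ) (i : ℕ) :
    IntegrableOn (fun v : ℝ => cexp (-(w * v)) * (c * v) ^ i) (Ioi 0) := by
  refine Integrable.mono' ((pow_exp_int hw i).const_mul (‖c‖ ^ i)) ?_ ?_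
  · exact (by fun_prop : Continuous fun v : ℝ => cexp (-(w * v)) * (c * v) ^ i).aestronglyMeasurable
  · rw [ae_restrict_iff' measurableSet_Ioi]
    refine Eventually.of_forall fun v hv => ?_
    have hv0 : 0 < v := hv
    rw [norm_mul, norm_pow, norm_mul, Complex.norm_exp, Complex.norm_real, Real.norm_eq_abs, abs_of_pos hv0]
    have : (-(w * (v : ℂ))).re = -(w.re * v) := by simp
    rw [this, mul_pow]
    apply le_of_eq
    ring

theorem pow_exp_integral {w : ℂ} (hw : 0 < w.re) (j : ℕ) :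
    ∫ v in Ioi (0 : ℝ), w * (cexp (-(w * v)) * ((w * v) ^ j / (j.factorial : ℂ))) = 1 := by
  have h1 := integral_Ioi_of_hasDerivAt_of_tendsto' (a := 0)
    (f := fun v : ℝ => -(cexp (-(w * v)) * ∑ i ∈ Finset.range (j + 1), (w * v) ^ i / (i.factorial : ℂ)))
    (f' := fun v : ℝ => w * (cexp (-(w * v)) * ((w * v) ^ j / (j.factorial : ℂ)))) (m := 0)
    (fun v _ => by
      refine (pow_exp_hasDeriv w j v).neg.congr_deriv ?_
      ring) ?_ ?_
  · rw [h1]
    have h2 : ∀ i ∈ Finset.range (j + 1), i ≠ 0 → (w * ((0 : ℝ) : ℂ)) ^ i / (i.factorial : ℂ) = 0 := by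
      intro i _ hi
      rw [ofReal_zero, mul_zero, zero_pow hi, zero_div]
    rw [Finset.sum_eq_single_of_mem 0 (by simp) h2]
    simp
  · have h3 := ((cpow_exp_int hw w j).const_mul (w / (j.factorial : ℂ)))
    refine h3.congr (Eventually.of_forall fun v => ?_)
    simp only
    ring
  · have h4 : Tendsto (fun v : ℝ => ∑ i ∈ Finset.range (j + 1),
        cexp (-(w * v)) * ((w * v) ^ i / (i.factorial : ℂ))) atTop (𝓝 (∑ i ∈ Finset.range (j + 1), (0 : ℂ))) :=
      tendsto_finset_sum _ fun i _ => pow_exp_tendsto hw i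
    rw [Finset.sum_const_zero] at h4
    have h5 := h4.neg
    rw [neg_zero] at h5
    refine h5.congr fun v => ?_
    rw [Finset.mul_sum]

/-- `1 - e^{-ixv} ∑_{j < m} (ixv)^j / j!` -/
noncomputable def Qf (m : ℕ) (x v : ℝ) : ℂ :=
  1 - cexp (-(x * v * I)) * ∑ j ∈ Finset.range m, ((x * v * I) ^ j / (j.factorial : ℂ))

theorem Qf_exp (m : ℕ) (x v : ℝ) (z : ℂ) : Qf m x v * cexp (-(z * v)) =
    cexp (-(z * v)) - ∑ j ∈ Finset.range m, 1 / (j.factorial : ℂ) * (cexp (-((x * I + z) * v)) * ((x * I) * v) ^ j) := by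
  unfold Qf
  rw [sub_mul, one_mul]
  congr 1
  have : cexp (-((x * I + z) * v)) = cexp (-(x * v * I)) * cexp (-(z * v)) := by
    rw [← Complex.exp_add]
    congr 1
    ring
  rw [Finset.mul_sum, Finset.sum_mul]
  refine Finset.sum_congr rfl fun j _ => ?_
  rw [this]
  have e : (x * v * I : ℂ) = (x * I) * v := by ring
  rw [e]
  ring

theorem Qf_int (m : ℕ) (x : ℝ) {z : ℂ} (hz : 0 < z.re) :
    IntegrableOn (fun v : ℝ => Qf m x v * cexp (-(z * v))) (Ioi 0) := by
  simp only [Qf_exp]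
  have h0 : 0 < ((x : ℂ) * I + z).re := by simpa using hz
  apply Integrable.sub
  · have := cpow_exp_int hz 1 0
    simpa [IntegrableOn] using this
  · apply integrable_finset_sum
    intro j _
    exact (cpow_exp_int h0 _ j).const_mul _

theorem Qf_integral (m : ℕ) (x : ℝ) {z : ℂ} (hz : 0 < z.re) :
    ∫ v in Ioi (0 : ℝ), Qf m x v * cexp (-(z * v)) = (x * I / (x * I + z)) ^ m / z := by
  set w : ℂ := x * I + z with hw
  have h0 : 0 < w.re := by rw [hw]; simpa using hz
  have hz0 : z ≠ 0 := by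
    intro h
    rw [h] at hz
    simp at hz
  have hw0 : w ≠ 0 := by
    intro h
    rw [h] at h0
    simp at h0
  have hA : ∫ v in Ioi (0 : ℝ), cexp (-(z * v)) = 1 / z := by
    have h1 := pow_exp_integral hz 0
    simp only [pow_zero, Nat.factorial_zero, Nat.cast_one, div_one, mul_one] at h1
    rw [integral_const_mul] at h1
    rw [eq_div_iff hz0, mul_comm]
    exact h1
  have hB : ∀ j : ℕ, ∫ v in Ioi (0 : ℝ), 1 / (j.factorial : ℂ) * (cexp (-(w * v)) * ((x * I) * v) ^ j) =
      (x * I / w) ^ j * (1 / w) := by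
    intro j
    have h1 := pow_exp_integral h0 j
    have h2 : ∀ v : ℝ, 1 / (j.factorial : ℂ) * (cexp (-(w * v)) * ((x * I) * v) ^ j) =
        ((x * I / w) ^ j * (1 / w)) * (w * (cexp (-(w * v)) * ((w * v) ^ j / (j.factorial : ℂ)))) := by
      intro v
      have e1 : ((x : ℂ) * I * v) ^ j = (x * I / w) ^ j * (w * v) ^ j := by
        rw [← mul_pow]
        congr 1
        field_simp
      rw [e1]
      field_simp
    simp only [h2]
    rw [integral_const_mul, h1, mul_one]
  simp only [Qf_exp]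
  rw [integral_sub, integral_finset_sum]
  · rw [hA]
    have h3 : ∀ j ∈ Finset.range m, ∫ v in Ioi (0 : ℝ), 1 / (j.factorial : ℂ) *
        (cexp (-((x * I + z) * v)) * ((x * I) * v) ^ j) = (x * I / w) ^ j * (1 / w) := by
      intro j _
      rw [← hB j]
    rw [Finset.sum_congr rfl h3, ← Finset.sum_mul]
    have h4 : x * I / w ≠ 1 := by
      intro h5
      rw [div_eq_one_iff_eq hw0] at h5
      apply hz0
      rw [hw] at h5
      linear_combination -h5
    rw [geom_sum_eq h4]
    have h6 : x * I / w - 1 = -(z / w) := by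
      rw [eq_neg_iff_add_eq_zero, sub_add_eq_add_sub, ← add_div, ← hw, div_self hw0, sub_self]
    rw [h6]
    field_simp
    ring
  · intro j _
    exact (cpow_exp_int h0 _ j).const_mul _
  · have := cpow_exp_int hz 1 0
    simpa [IntegrableOn] using this
  · apply integrable_finset_sum
    intro j _
    exact (cpow_exp_int h0 _ j).const_mul _

theorem Qf_cont (m : ℕ) (x : ℝ) : Continuous (Qf m x) := by
  unfold Qf
  fun_prop

/-- **Laplace inversion** -/
theorem inv : S_inv := by
  intro β φ hβ hφ m x hm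
  have hline := lap_line hβ hφ
  obtain ⟨ε, hε, hs⟩ := hφ.supp
  have h1 : ∀ K : ℝ, (x * I / (x * I + (1 + K * I))) ^ m * Lap φ (1 + K * I) / (1 + K * I) =
      ∫ v in Ioi (0 : ℝ), Lap φ (1 + K * I) * (Qf m x v * cexp (-((1 + K * I) * v))) := by
    intro K
    rw [integral_const_mul, Qf_integral m x (by simp)]
    ring
  simp only [h1]
  have hprod : Integrable (Function.uncurry fun (K v : ℝ) =>
      Lap φ (1 + K * I) * (Qf m x v * cexp (-((1 + K * I) * v)))) (volume.prod (volume.restrict (Ioi 0))) := by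
    have h2 : IntegrableOn (fun v : ℝ => Qf m x v * cexp (-((1 : ℂ) * v))) (Ioi 0) := Qf_int m x (by simp)
    have h3 := hline.mul_prod h2
    refine h3.mono ?_ (Eventually.of_forall fun p => ?_)
    · have hc := (Lap_diff hφ).continuous
      have hq := Qf_cont m x
      exact (by
        simp only [Function.uncurry_def]
        fun_prop : Continuous (Function.uncurry fun (K v : ℝ) =>
        Lap φ (1 + K * I) * (Qf m x v * cexp (-((1 + K * I) * v))))).aestronglyMeasurable
    · simp only [Function.uncurry]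
      rw [norm_mul, norm_mul, norm_mul, norm_mul, Complex.norm_exp, Complex.norm_exp]
      apply le_of_eq
      congr 3
      simp
  rw [integral_integral_swap hprod]
  have h4 : ∀ v : ℝ, ∫ K : ℝ, Lap φ (1 + K * I) * (Qf m x v * cexp (-((1 + K * I) * v))) =
      Qf m x v * (2 * (Real.pi : ℂ) * φ v) := by
    intro v
    have h5 := inversion hβ hφ v
    have h6 : ∀ K : ℝ, Lap φ (1 + K * I) * (Qf m x v * cexp (-((1 + K * I) * v))) =
        Qf m x v * (Lap φ (1 + K * I) * cexp (-((1 + K * I) * v))) := by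
      intro K
      ring
    simp only [h6]
    rw [integral_const_mul]
    congr 1
    rw [← h5, ← mul_assoc]
    have hpi : (Real.pi : ℂ) ≠ 0 := by exact_mod_cast Real.pi_ne_zero
    have h11 : 2 * (Real.pi : ℂ) * (1 / (2 * (Real.pi : ℂ))) = 1 := by
      field_simp
    rw [h11, one_mul]
  simp only [h4]
  have h7 : ∫ v in Ioi (0 : ℝ), Qf m x v * (2 * (Real.pi : ℂ) * φ v) =
      ∫ v : ℝ, Qf m x v * (2 * (Real.pi : ℂ) * φ v) := by
    apply setIntegral_eq_integral_of_forall_compl_eq_zero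
    intro v hv
    have : φ v = 0 := by
      by_contra hne
      apply hv
      have := (hs v hne).1
      exact lt_of_lt_of_le hε this
    simp [this]
  rw [h7]
  have hφc := hφ.cont
  have hφi := wt_int hφ
  have h8 : ∫ v : ℝ, Qf m x v * (2 * (Real.pi : ℂ) * φ v) = 2 * (Real.pi : ℂ) * ∫ v : ℝ, (φ v : ℂ) * Qf m x v := by
    rw [← integral_const_mul]
    congr 1
    ext v
    ring
  rw [h8]
  have hpi : (Real.pi : ℂ) ≠ 0 := by exact_mod_cast Real.pi_ne_zero
  have h9 : ∫ v : ℝ, (φ v : ℂ) * Qf m x v = 1 + Fm m φ x := by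
    have h10 : ∀ v : ℝ, (φ v : ℂ) * Qf m x v = (φ v : ℂ) -
        (φ v : ℂ) * cexp (-(x * v * I)) * ∑ j ∈ Finset.range m, ((x * v * I) ^ j / (j.factorial : ℂ)) := by
      intro v
      unfold Qf
      ring
    simp only [h10]
    rw [integral_sub]
    · rw [integral_complex_ofReal, hφ.mass, ofReal_one]
      unfold Fm
      ring
    · exact hφi.ofReal
    · apply Continuous.integrable_of_hasCompactSupport (by fun_prop)
      apply HasCompactSupport.intro (isCompact_Icc (a := ε) (b := 1))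
      intro v hv
      have h0 : φ v = 0 := by
        by_contra hne
        exact hv (hs v hne)
      simp [h0]
  rw [h9]
  field_simp

end Pool.Agent.Q237.BD
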