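import Pool.Agent.Q162.BD.Gz
import Pool.Agent.Q260.GM.Zl3
import Pool.Agent.Q260.GM.Tb

set_option autoImplicit false

/-!
Job Z3: comparison of zeta near a point of the critical line without close zeros.
-/

namespace Pool.Agent.Q237.BD

open Complex MeasureTheory Filter Topology Set
open scoped ComplexConjugate
open Pool.Agent.Q286.BD
open Pool.Agent.Y23 (Zt mu IsZ zsummable zsum_le Lg one_le_Lg ZZ YY YL Rg XX_YY YY_ne)
open Pool.Agent.H24R2.JP (XX)
open Pool.Agent.Q260.GM (Pz pk Pz_eq Pz_nonneg Pz_le pz_summ re_ZZ ZZ_norm zt_re XX_ne)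
open Pool.Agent.Q162.BD (hasDerivAt_log_norm)

theorem xdiff : Differentiable ℂ XX := Pool.Agent.H24R2.JP.B1h.XX_diff

theorem mk_deriv_v (u v : ℝ) : HasDerivAt (fun v : ℝ => (⟨v, u⟩ : ℂ)) 1 v := by
  have h1 : HasDerivAt (fun v : ℝ => (v : ℂ) + u * I) 1 v :=
    (Complex.ofRealCLM.hasDerivAt (x := v)).add_const _
  refine h1.congr_of_eventuallyEq (Eventually.of_forall fun x => ?_)
  apply Complex.ext <;> simp

/-- horizontal derivative -/
theorem xx_deriv_v (hRH : RiemannHypothesis) {v : ℝ} (hv : 0 < v) (h1 : v ≤ 1) (u : ℝ) :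
    HasDerivAt (fun v : ℝ => Real.log ‖XX ⟨v, u⟩‖) (Pz v u) v := by
  have h2 : HasDerivAt (fun v : ℝ => XX ⟨v, u⟩) (deriv XX ⟨v, u⟩ * 1) v := by
    have h5 : HasDerivAt XX (deriv XX (⟨v, u⟩ : ℂ)) ((fun v : ℝ => (⟨v, u⟩ : ℂ)) v) :=
      (xdiff ⟨v, u⟩).hasDerivAt
    exact h5.comp v (mk_deriv_v u v)
  rw [mul_one] at h2
  have h3 := hasDerivAt_log_norm h2 (XX_ne hRH (by exact hv))
  rw [← re_ZZ hRH hv h1 u]
  exact h3

theorem xx_cont (u : ℝ) : Continuous (fun v : ℝ => XX ⟨v, u⟩) := by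
  refine xdiff.continuous.comp ?_
  rw [continuous_iff_continuousAt]
  intro v
  exact (mk_deriv_v u v).continuousAt

theorem xx_pos (hRH : RiemannHypothesis) {v : ℝ} (hv : 0 < v) (u : ℝ) : 0 < ‖XX ⟨v, u⟩‖ :=
  norm_pos_iff.2 (XX_ne hRH (by exact hv))

/-- the Poisson sum at a point without close zeros -/
theorem pz_near (hRH : RiemannHypothesis) {u x1 v : ℝ} (hx : 0 < x1) (hx1 : x1 ≤ 1)
    (hu : ∀ g : ℝ, riemannZeta (cl g) = 0 → x1 ≤ |g - u|) (hv : 0 < v) (hvx : v ≤ x1) :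
    Pz v u ≤ 2 * v / x1 * Pz x1 u := by
  rw [Pz_eq, Pz_eq, ← tsum_mul_left]
  refine (pz_summ hv (hvx.trans hx1) u).tsum_le_tsum (fun ρ => ?_) ((pz_summ hx hx1 u).mul_left _)
  have h1 : riemannZeta (cl (ρ : ℂ).im) = 0 := by
    have h2 := zt_re hRH ρ
    have h3 : cl (ρ : ℂ).im = (ρ : ℂ) := by
      unfold cl
      apply Complex.ext
      · simp at h2 ⊢
        linarith
      · simp
    rw [h3]
    exact ρ.2.1
  have h4 := hu _ h1
  have h5 : x1 ^ 2 ≤ (u - (ρ : ℂ).im) ^ 2 := by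
    have h6 : |(ρ : ℂ).im - u| ^ 2 = (u - (ρ : ℂ).im) ^ 2 := by
      rw [sq_abs]
      ring
    rw [← h6]
    exact pow_le_pow_left₀ hx.le h4 2
  have h7 : pk v (u - (ρ : ℂ).im) ≤ 2 * v / x1 * pk x1 (u - (ρ : ℂ).im) := by
    unfold pk
    set D := (u - (ρ : ℂ).im) ^ 2 with hD
    have hD0 : 0 < D := lt_of_lt_of_le (by positivity) h5
    have e1 : 2 * v / x1 * (x1 / (x1 ^ 2 + D)) = 2 * v / (x1 ^ 2 + D) := by
      field_simp
    rw [e1, div_le_div_iff₀ (by positivity) (by positivity)]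
    nlinarith [mul_pos hv hD0, mul_nonneg hv.le (sq_nonneg v), mul_le_mul_of_nonneg_left h5 hv.le]
  calc (mu ρ : ℝ) * pk v (u - (ρ : ℂ).im) ≤ (mu ρ : ℝ) * (2 * v / x1 * pk x1 (u - (ρ : ℂ).im)) :=
        mul_le_mul_of_nonneg_left h7 (Nat.cast_nonneg _)
    _ = _ := by ring

/-- passing to the line -/
theorem to_line {A : ℝ} {u x1 : ℝ} (hx : 0 < x1)
    (h : ∀ v : ℝ, 0 < v → v ≤ x1 → ‖XX ⟨x1, u⟩‖ ≤ A * ‖XX ⟨v, u⟩‖) {v : ℝ} (hv : 0 ≤ v) (hvx : v ≤ x1) :
    ‖XX ⟨x1, u⟩‖ ≤ A * ‖XX ⟨v, u⟩‖ := by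
  rcases hv.eq_or_lt with h0 | h0
  · rw [← h0]
    have hc : Tendsto (fun v : ℝ => A * ‖XX ⟨v, u⟩‖) (𝓝[>] 0) (𝓝 (A * ‖XX ⟨0, u⟩‖)) :=
      ((xx_cont u).norm.const_mul A).continuousAt.tendsto.mono_left nhdsWithin_le_nhds
    refine ge_of_tendsto hc ?_
    have h1 : ∀ᶠ v : ℝ in 𝓝[>] 0, v < x1 := nhdsWithin_le_nhds (gt_mem_nhds hx)
    filter_upwards [h1, self_mem_nhdsWithin] with v hv1 hv2
    exact h v hv2 hv1.le
  · exact h v h0 hvx

theorem near_line (hRH : RiemannHypothesis) : ∃ K : ℝ, 0 < K ∧ ∀ u x1 : ℝ, 0 < x1 → x1 ≤ 1 →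
    (∀ g : ℝ, riemannZeta (cl g) = 0 → x1 ≤ |g - u|) → ∀ v : ℝ, 0 ≤ v → v ≤ x1 →
    ‖XX ⟨x1, u⟩‖ ≤ Real.exp (K * Lg u) * ‖XX ⟨v, u⟩‖ := by
  obtain ⟨K, hK, hKs⟩ := zsum_le
  refine ⟨K, hK, fun u x1 hx hx1 hu v hv hvx => to_line hx (fun v hv hvx => ?_) hv hvx⟩
  have hL := one_le_Lg u
  have hP := Pz_le hKs hx hx1 u
  have hmono : MonotoneOn (fun v : ℝ => K * Lg u * (v ^ 2 / x1 ^ 2) - Real.log ‖XX ⟨v, u⟩‖) (Icc v x1) := by
    have hd : ∀ y : ℝ, 0 < y → y ≤ 1 → HasDerivAt (fun v : ℝ => K * Lg u * (v ^ 2 / x1 ^ 2) - Real.log ‖XX ⟨v, u⟩‖)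
        (K * Lg u * (2 * y / x1 ^ 2) - Pz y u) y := by
      intro y hy hy1
      have e1 : HasDerivAt (fun v : ℝ => v ^ 2 / x1 ^ 2) (2 * y / x1 ^ 2) y := by
        have := (hasDerivAt_pow 2 y).div_const (x1 ^ 2)
        simpa using this
      exact (e1.const_mul _).sub (xx_deriv_v hRH hy hy1 u)
    apply monotoneOn_of_deriv_nonneg (convex_Icc v x1)
    · intro y hy
      exact (hd y (lt_of_lt_of_le hv hy.1) (hy.2.trans hx1)).continuousAt.continuousWithinAt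
    · intro y hy
      rw [interior_Icc] at hy
      exact (hd y (hv.trans hy.1) (hy.2.le.trans hx1)).differentiableAt.differentiableWithinAt
    · intro y hy
      rw [interior_Icc] at hy
      have hy0 : 0 < y := hv.trans hy.1
      rw [(hd y hy0 (hy.2.le.trans hx1)).deriv]
      have e2 := pz_near hRH hx hx1 hu hy0 hy.2.le
      have e3 : 2 * y / x1 * Pz x1 u ≤ 2 * y / x1 * (K * Lg u / x1) :=
        mul_le_mul_of_nonneg_left hP (by positivity)
      have e4 : 2 * y / x1 * (K * Lg u / x1) = K * Lg u * (2 * y / x1 ^ 2) := by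
        field_simp
      linarith
  have h1 := hmono (left_mem_Icc.2 hvx) (right_mem_Icc.2 hvx) hvx
  simp only at h1
  have h2 : x1 ^ 2 / x1 ^ 2 = 1 := div_self (by positivity)
  have h3 : 0 ≤ K * Lg u * (v ^ 2 / x1 ^ 2) := by positivity
  rw [h2] at h1
  have h4 : Real.log ‖XX ⟨x1, u⟩‖ ≤ K * Lg u + Real.log ‖XX ⟨v, u⟩‖ := by linarith
  have h5 := Real.exp_le_exp.2 h4
  rw [Real.exp_add, Real.exp_log (xx_pos hRH hx u), Real.exp_log (xx_pos hRH hv u)] at h5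
  exact h5

theorem mono_line (hRH : RiemannHypothesis) {x1 : ℝ} (hx : 0 < x1) (hx1 : x1 ≤ 1) (u : ℝ) :
    ‖XX ⟨0, u⟩‖ ≤ ‖XX ⟨x1, u⟩‖ := by
  have key : ∀ v : ℝ, 0 < v → v ≤ x1 → ‖XX ⟨v, u⟩‖ ≤ ‖XX ⟨x1, u⟩‖ := by
    intro v hv hvx
    have hmono : MonotoneOn (fun v : ℝ => Real.log ‖XX ⟨v, u⟩‖) (Icc v x1) := by
      apply monotoneOn_of_deriv_nonneg (convex_Icc v x1)
      · intro y hy
        exact (xx_deriv_v hRH (lt_of_lt_of_le hv hy.1) (hy.2.trans hx1) u).continuousAt.continuousWithinAt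
      · intro y hy
        rw [interior_Icc] at hy
        exact (xx_deriv_v hRH (hv.trans hy.1) (hy.2.le.trans hx1) u).differentiableAt.differentiableWithinAt
      · intro y hy
        rw [interior_Icc] at hy
        rw [(xx_deriv_v hRH (hv.trans hy.1) (hy.2.le.trans hx1) u).deriv]
        exact Pz_nonneg (hv.trans hy.1).le u
    have h1 := hmono (left_mem_Icc.2 hvx) (right_mem_Icc.2 hvx) hvx
    exact (Real.log_le_log_iff (xx_pos hRH hv u) (xx_pos hRH hx u)).1 h1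
  have hc : Tendsto (fun v : ℝ => ‖XX ⟨v, u⟩‖) (𝓝[>] 0) (𝓝 ‖XX ⟨0, u⟩‖) :=
    (xx_cont u).norm.continuousAt.tendsto.mono_left nhdsWithin_le_nhds
  refine le_of_tendsto hc ?_
  have h1 : ∀ᶠ v : ℝ in 𝓝[>] 0, v < x1 := nhdsWithin_le_nhds (gt_mem_nhds hx)
  filter_upwards [h1, self_mem_nhdsWithin] with v hv1 hv2
  exact key v hv2 hv1.le

/-- comparison along a segment -/
theorem seg_ratio {F : ℂ → ℂ} {a b : ℂ} {M : ℝ}
    (h : ∀ θ : ℝ, 0 ≤ θ → θ ≤ 1 → DifferentiableAt ℂ F (a + θ * (b - a)) ∧ F (a + θ * (b - a)) ≠ 0 ∧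
      ‖deriv F (a + θ * (b - a)) / F (a + θ * (b - a))‖ ≤ M) :
    ‖F b‖ ≤ Real.exp (M * ‖b - a‖) * ‖F a‖ := by
  have hd : ∀ θ : ℝ, 0 ≤ θ → θ ≤ 1 → HasDerivAt (fun θ : ℝ => Real.log ‖F (a + θ * (b - a))‖)
      ((deriv F (a + θ * (b - a)) * (b - a) / F (a + θ * (b - a))).re) θ := by
    intro θ h0 h1
    have e1 : HasDerivAt (fun θ : ℝ => a + θ * (b - a)) (b - a) θ := by
      have := ((Complex.ofRealCLM.hasDerivAt (x := θ)).mul_const (b - a)).const_add a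
      simpa using this
    have e2 := (h θ h0 h1).1.hasDerivAt.comp θ e1
    exact hasDerivAt_log_norm e2 (h θ h0 h1).2.1
  have h1 := Convex.norm_image_sub_le_of_norm_hasDerivWithin_le
    (f := fun θ : ℝ => Real.log ‖F (a + θ * (b - a))‖)
    (f' := fun θ : ℝ => (deriv F (a + θ * (b - a)) * (b - a) / F (a + θ * (b - a))).re) (s := Icc 0 1)
    (x := 0) (y := 1) (C := M * ‖b - a‖)
    (fun θ hθ => (hd θ hθ.1 hθ.2).hasDerivWithinAt) ?_ (convex_Icc 0 1) (by simp) (by simp)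
  · simp only [ofReal_one, one_mul, ofReal_zero, zero_mul, add_zero, add_sub_cancel, sub_zero, norm_one,
      mul_one, Real.norm_eq_abs] at h1
    have h2 := (abs_le.1 h1).2
    have ha := (h 0 le_rfl zero_le_one).2.1
    have hb := (h 1 zero_le_one le_rfl).2.1
    simp only [ofReal_one, one_mul, ofReal_zero, zero_mul, add_zero, add_sub_cancel] at ha hb
    have h3 : Real.log ‖F b‖ ≤ M * ‖b - a‖ + Real.log ‖F a‖ := by linarith
    have h4 := Real.exp_le_exp.2 h3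
    rw [Real.exp_add, Real.exp_log (norm_pos_iff.2 ha), Real.exp_log (norm_pos_iff.2 hb)] at h4
    exact h4
  · intro θ hθ
    rw [Real.norm_eq_abs]
    refine (Complex.abs_re_le_norm _).trans ?_
    have e : deriv F (a + θ * (b - a)) * (b - a) / F (a + θ * (b - a)) =
        (deriv F (a + θ * (b - a)) / F (a + θ * (b - a))) * (b - a) := by ring
    rw [e, norm_mul]
    exact mul_le_mul_of_nonneg_right (h θ hθ.1 hθ.2).2.2 (norm_nonneg _)

theorem Lg_le {t y : ℝ} (h : |y| ≤ |t| + 1) : Lg y ≤ 2 * Real.log (|t| + 2) := by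
  have h0 := abs_nonneg t
  have h0' := abs_nonneg y
  have h1 : Lg y = Real.log (3 + |y|) := rfl
  rw [h1]
  have h2 : 2 * Real.log (|t| + 2) = Real.log ((|t| + 2) ^ 2) := by
    rw [Real.log_pow]
    norm_num
  rw [h2]
  apply Real.log_le_log (by positivity)
  nlinarith

/-- vertical comparison -/
theorem vert (hRH : RiemannHypothesis) : ∃ C : ℝ, 0 < C ∧ ∀ t u x1 : ℝ, 0 < x1 → x1 ≤ 1 → |u - t| ≤ x1 →
    ‖XX ⟨x1, t⟩‖ ≤ Real.exp (C * Real.log (|t| + 2)) * ‖XX ⟨x1, u⟩‖ := by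
  obtain ⟨C, hC, hZ⟩ := ZZ_norm hRH
  refine ⟨2 * C, by positivity, fun t u x1 hx hx1 hut => ?_⟩
  have h0 := abs_nonneg t
  have hl : 0 ≤ Real.log (|t| + 2) := Real.log_nonneg (by linarith)
  have h1 := seg_ratio (F := XX) (a := (⟨x1, u⟩ : ℂ)) (b := (⟨x1, t⟩ : ℂ)) (M := 2 * C * Real.log (|t| + 2) / x1) ?_
  · refine h1.trans ?_
    apply mul_le_mul_of_nonneg_right _ (norm_nonneg _)
    apply Real.exp_le_exp.2
    have h2 : ‖(⟨x1, t⟩ : ℂ) - ⟨x1, u⟩‖ ≤ x1 := by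
      have h3 : (⟨x1, t⟩ : ℂ) - ⟨x1, u⟩ = ((t - u : ℝ) : ℂ) * I := by
        apply Complex.ext <;> simp
      rw [h3, norm_mul, Complex.norm_I, mul_one, Complex.norm_real, Real.norm_eq_abs, abs_sub_comm]
      exact hut
    calc 2 * C * Real.log (|t| + 2) / x1 * ‖(⟨x1, t⟩ : ℂ) - ⟨x1, u⟩‖
        ≤ 2 * C * Real.log (|t| + 2) / x1 * x1 := by gcongr
      _ = 2 * C * Real.log (|t| + 2) := by field_simp
  · intro θ hθ0 hθ1
    set y : ℝ := u + θ * (t - u) with hy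
    have e1 : (⟨x1, u⟩ : ℂ) + θ * ((⟨x1, t⟩ : ℂ) - ⟨x1, u⟩) = ⟨x1, y⟩ := by
      apply Complex.ext <;> simp [hy]
    rw [e1]
    refine ⟨xdiff _, XX_ne hRH (by exact hx), ?_⟩
    have h2 := hZ x1 hx hx1 y
    unfold ZZ at h2
    refine h2.trans ?_
    have h3 : |y| ≤ |t| + 1 := by
      have h4 : y = t + (1 - θ) * (u - t) := by rw [hy]; ring
      rw [h4]
      refine (abs_add_le _ _).trans ?_
      rw [abs_mul, abs_of_nonneg (by linarith : 0 ≤ 1 - θ)]
      have h5 : (1 - θ) * |u - t| ≤ 1 * 1 := by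
        apply mul_le_mul (by linarith) (hut.trans hx1) (abs_nonneg _) zero_le_one
      linarith
    have h6 := Lg_le h3
    rw [div_le_div_iff_of_pos_right hx]
    nlinarith

/-- the archimedean factor without its pole -/
theorem YY_eq {w : ℂ} (h : w + 1 / 2 ≠ 0) : YY w = 8 * Real.pi * (w - 1 / 2) * Gammaℝ (5 / 2 + w) := by
  have h1 : (1 / 2 + w : ℂ) ≠ 0 := by
    intro h0
    apply h
    linear_combination h0
  have h2 := Gammaℝ_add_two h1
  have h3 : (1 / 2 + w + 2 : ℂ) = 5 / 2 + w := by ring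
  rw [h3] at h2
  rw [h2]
  unfold YY
  have hpi : (Real.pi : ℂ) ≠ 0 := ofReal_ne_zero.mpr Real.pi_ne_zero
  field_simp
  ring

theorem gr_bound {t : ℝ} {z : ℂ} (h1 : 1 ≤ z.re) (h2 : z.re ≤ 3) (h3 : |z.im| ≤ |t| + 1) :
    DifferentiableAt ℂ Gammaℝ z ∧ Gammaℝ z ≠ 0 ∧ ‖deriv Gammaℝ z / Gammaℝ z‖ ≤ 12 * Real.log (|t| + 2) := by
  have h0 := abs_nonneg t
  have hz : 0 < z.re := by linarith
  refine ⟨Pool.Agent.Y23.an_Gammaℝ hz, Gammaℝ_ne_zero_of_re_pos hz, ?_⟩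
  have e1 : deriv Gammaℝ z / Gammaℝ z = logDeriv Gammaℝ z := rfl
  rw [e1, Pool.Agent.Q260.LF.logDeriv_Gammaℝ hz]
  have hre : (z / 2).re = z.re / 2 := by simp
  have h4 := H353.E.dig_norm (s := z / 2) (by rw [hre]; linarith)
  have hl2 : 0.69 ≤ Real.log (|t| + 2) := by
    have h5 := Real.log_two_gt_d9
    have h6 : Real.log 2 ≤ Real.log (|t| + 2) := Real.log_le_log (by norm_num) (by linarith)
    linarith
  have h5 : Real.log (‖z / 2‖ + 2) ≤ 2 * Real.log (|t| + 2) := by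
    have h6 : 2 * Real.log (|t| + 2) = Real.log ((|t| + 2) ^ 2) := by
      rw [Real.log_pow]
      norm_num
    rw [h6]
    apply Real.log_le_log (by positivity)
    have h7 : ‖z / 2‖ ≤ 3 / 2 + (|t| + 1) / 2 := by
      have h8 := Complex.norm_le_abs_re_add_abs_im z
      rw [abs_of_pos hz] at h8
      rw [norm_div, Complex.norm_ofNat]
      linarith
    nlinarith
  have b4 : ‖-(Real.log Real.pi : ℂ) / 2‖ ≤ 1 := by
    rw [norm_div, norm_neg, Complex.norm_real, Real.norm_eq_abs, Complex.norm_ofNat]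
    have h5 : 0 ≤ Real.log Real.pi := Real.log_nonneg (by linarith [Real.pi_gt_three])
    have h7 : Real.log Real.pi ≤ 2 := by
      have h8 : Real.log Real.pi ≤ Real.log (2 ^ 2) := Real.log_le_log Real.pi_pos (by linarith [Real.pi_lt_four])
      rw [Real.log_pow] at h8
      have := Real.log_two_lt_d9
      push_cast at h8
      linarith
    rw [abs_of_nonneg h5]
    linarith
  have h6 := norm_add_le (-(Real.log Real.pi : ℂ) / 2) (1 / 2 * logDeriv Gamma (z / 2))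
  have h7 : ‖(1 / 2 : ℂ) * logDeriv Gamma (z / 2)‖ = 1 / 2 * ‖logDeriv Gamma (z / 2)‖ := by
    rw [norm_mul]
    have : ‖(1 / 2 : ℂ)‖ = 1 / 2 := by simp
    rw [this]
  rw [h7] at h6
  linarith

theorem YY_ratio {t : ℝ} {w : ℂ} (h1 : |w.re| ≤ 1 / 4) (h2 : |w.im| ≤ 1 / 2) :
    ‖YY (t * I + w)‖ ≤ Real.exp (11 * Real.log (|t| + 2)) * ‖YY (t * I)‖ := by
  have h0 := abs_nonneg t
  have hr := abs_le.1 h1
  have hi := abs_le.1 h2
  have hw : ‖w‖ ≤ 3 / 4 := by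
    have := Complex.norm_le_abs_re_add_abs_im w
    linarith
  have n1 : (t * I + w : ℂ) + 1 / 2 ≠ 0 := by
    intro h
    have := congrArg Complex.re h
    simp at this
    linarith
  have n2 : (t * I : ℂ) + 1 / 2 ≠ 0 := by
    intro h
    have := congrArg Complex.re h
    simp at this
  rw [YY_eq n1, YY_eq n2, norm_mul, norm_mul (8 * (Real.pi : ℂ) * ((t * I : ℂ) - 1 / 2)), norm_mul, norm_mul _ ((t * I : ℂ) - 1 / 2)]
  have g1 := seg_ratio (F := Gammaℝ) (a := 5 / 2 + t * I) (b := 5 / 2 + (t * I + w)) (M := 12 * Real.log (|t| + 2)) ?_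
  · have e1 : (5 / 2 + (t * I + w) - (5 / 2 + t * I) : ℂ) = w := by ring
    rw [e1] at g1
    have hl : 0 ≤ Real.log (|t| + 2) := Real.log_nonneg (by linarith)
    have g2 : Real.exp (12 * Real.log (|t| + 2) * ‖w‖) ≤ Real.exp (9 * Real.log (|t| + 2)) := by
      apply Real.exp_le_exp.2
      nlinarith
    have g3 : ‖(t * I + w : ℂ) - 1 / 2‖ ≤ Real.exp (2 * Real.log (|t| + 2)) * ‖(t * I : ℂ) - 1 / 2‖ := by
      have e2 : (t * I + w : ℂ) - 1 / 2 = (t * I - 1 / 2) + w := by ring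
      have e3 : (1 / 2 : ℝ) ≤ ‖(t * I : ℂ) - 1 / 2‖ := by
        have := Complex.abs_re_le_norm ((t * I : ℂ) - 1 / 2)
        have e7 : ((t * I : ℂ) - 1 / 2).re = -(1 / 2) := by simp
        rw [e7, abs_neg, abs_of_pos (by norm_num)] at this
        exact this
      have e4 : (4 : ℝ) ≤ Real.exp (2 * Real.log (|t| + 2)) := by
        have e5 : Real.exp (2 * Real.log (|t| + 2)) = (|t| + 2) ^ 2 := by
          rw [mul_comm, Real.exp_mul, Real.exp_log (by linarith)]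
          norm_num
        rw [e5]
        nlinarith
      rw [e2]
      refine (norm_add_le _ _).trans ?_
      nlinarith
    have e6 : Real.exp (11 * Real.log (|t| + 2)) = Real.exp (2 * Real.log (|t| + 2)) * Real.exp (9 * Real.log (|t| + 2)) := by
      rw [← Real.exp_add]
      congr 1
      ring
    rw [e6]
    calc ‖8 * (Real.pi : ℂ)‖ * ‖(t * I + w : ℂ) - 1 / 2‖ * ‖Gammaℝ (5 / 2 + (t * I + w))‖
        ≤ ‖8 * (Real.pi : ℂ)‖ * (Real.exp (2 * Real.log (|t| + 2)) * ‖(t * I : ℂ) - 1 / 2‖) *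
          (Real.exp (9 * Real.log (|t| + 2)) * ‖Gammaℝ (5 / 2 + t * I)‖) := by
          gcongr
          refine g1.trans ?_
          gcongr
      _ = _ := by ring
  · intro θ hθ0 hθ1
    have e1 : (5 / 2 + t * I : ℂ) + θ * (5 / 2 + (t * I + w) - (5 / 2 + t * I)) = 5 / 2 + t * I + θ * w := by ring
    rw [e1]
    have e2 : (5 / 2 + t * I + θ * w : ℂ).re = 5 / 2 + θ * w.re := by simp
    have e3 : (5 / 2 + t * I + θ * w : ℂ).im = t + θ * w.im := by simp
    have e4 : |θ * w.re| ≤ 1 / 4 := by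
      rw [abs_mul, abs_of_nonneg hθ0]
      calc θ * |w.re| ≤ 1 * (1 / 4) := mul_le_mul hθ1 h1 (abs_nonneg _) zero_le_one
        _ = _ := one_mul _
    have e5 : |θ * w.im| ≤ 1 / 2 := by
      rw [abs_mul, abs_of_nonneg hθ0]
      calc θ * |w.im| ≤ 1 * (1 / 2) := mul_le_mul hθ1 h2 (abs_nonneg _) zero_le_one
        _ = _ := one_mul _
    have e6 := abs_le.1 e4
    apply gr_bound
    · rw [e2]
      linarith
    · rw [e2]
      linarith
    · rw [e3]
      refine (abs_add_le _ _).trans ?_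
      linarith

theorem refl_norm (x u : ℝ) : ‖XX ⟨|x|, u⟩‖ = ‖XX ⟨x, u⟩‖ := by
  rcases le_or_gt 0 x with h | h
  · rw [abs_of_nonneg h]
  · rw [abs_of_neg h]
    have e1 : (⟨-x, u⟩ : ℂ) = -(conj (⟨x, u⟩ : ℂ)) := by
      apply Complex.ext <;> simp
    rw [e1, Pool.Agent.H24R2.JP.Zer.XX_even, Pool.Agent.H24R2.JP.B1h.XX_conj]
    exact Complex.norm_conj _

theorem hh' : S_H := by
  intro hRH
  obtain ⟨K, hK, hn⟩ := near_line hRH
  obtain ⟨C, hC, hv⟩ := vert hRH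
  refine ⟨2 * K + C + 11, by positivity, fun t d hd hd1 hz w hw1 hw2 => ?_⟩
  have h0 := abs_nonneg t
  set l := Real.log (|t| + 2) with hl
  have hl0 : 0 ≤ l := Real.log_nonneg (by linarith)
  set u := t + w.im with hu
  have hut : |u - t| ≤ d / 2 := by
    rw [hu, add_sub_cancel_left]
    exact hw2
  have hu1 : |u| ≤ |t| + 1 := by
    rw [hu]
    refine (abs_add_le _ _).trans ?_
    linarith
  have hx : 0 < d / 2 := by positivity
  have hx1 : d / 2 ≤ 1 := by linarith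
  have hzu : ∀ g : ℝ, riemannZeta (cl g) = 0 → d / 2 ≤ |g - u| := by
    intro g hg
    have h3 := hz g hg
    have h4 : |g - t| ≤ |g - u| + |u - t| := abs_sub_le g u t
    linarith
  have a1 := mono_line hRH hx hx1 t
  have a2 := hv t u (d / 2) hx hx1 hut
  have a3 := hn u (d / 2) hx hx1 hzu |w.re| (abs_nonneg _) (by linarith)
  rw [refl_norm] at a3
  have a4 : Real.exp (K * Lg u) ≤ Real.exp (2 * K * l) := by
    apply Real.exp_le_exp.2
    have := Lg_le hu1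
    nlinarith
  have e1 : (⟨0, t⟩ : ℂ) = t * I := by apply Complex.ext <;> simp
  have e2 : (⟨w.re, u⟩ : ℂ) = t * I + w := by apply Complex.ext <;> simp [hu]
  have a5 : ‖XX (t * I)‖ ≤ Real.exp ((2 * K + C) * l) * ‖XX (t * I + w)‖ := by
    rw [← e2, ← e1]
    calc ‖XX ⟨0, t⟩‖ ≤ Real.exp (C * l) * (Real.exp (2 * K * l) * ‖XX ⟨w.re, u⟩‖) := by
          refine a1.trans (a2.trans ?_)
          gcongr
          refine a3.trans ?_
          gcongr
      _ = _ := by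
          rw [← mul_assoc, ← Real.exp_add]
          congr 2
          ring
  have hwr : |w.re| ≤ 1 / 4 := by linarith
  have hwi : |w.im| ≤ 1 / 2 := by linarith
  have hr := abs_le.1 hwr
  have m1 : (t * I : ℂ) ∈ Rg := by
    refine ⟨?_, ?_, Or.inl ?_⟩
    · intro h
      have := congrArg Complex.re h
      simp at this
    · intro h
      have := congrArg Complex.re h
      simp at this
    · have e8 : (t * I : ℂ).re = 0 := by simp
      rw [e8]
      norm_num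
  have m2 : (t * I + w : ℂ) ∈ Rg := by
    refine ⟨?_, ?_, Or.inl ?_⟩
    · intro h
      have := congrArg Complex.re h
      simp at this
      linarith
    · intro h
      have := congrArg Complex.re h
      simp at this
      linarith
    · simp
      linarith
  rw [XX_YY m1, XX_YY m2, norm_mul, norm_mul] at a5
  have e3 : (1 / 2 + t * I : ℂ) = cl t := rfl
  have e4 : (1 / 2 + (t * I + w) : ℂ) = cl t + w := by
    unfold cl
    ring
  rw [e3, e4] at a5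
  have a6 := YY_ratio (t := t) hwr hwi
  have a7 : 0 < ‖YY (t * I)‖ := norm_pos_iff.2 (YY_ne m1)
  have a8 : ‖YY (t * I)‖ * ‖riemannZeta (cl t)‖ ≤
      ‖YY (t * I)‖ * (Real.exp ((2 * K + C + 11) * l) * ‖riemannZeta (cl t + w)‖) := by
    calc ‖YY (t * I)‖ * ‖riemannZeta (cl t)‖
        ≤ Real.exp ((2 * K + C) * l) * (Real.exp (11 * l) * ‖YY (t * I)‖ * ‖riemannZeta (cl t + w)‖) := by
          refine a5.trans ?_
          gcongr
      _ = ‖YY (t * I)‖ * ((Real.exp ((2 * K + C) * l) * Real.exp (11 * l)) * ‖riemannZeta (cl t + w)‖) := by ring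
      _ = _ := by
          rw [← Real.exp_add]
          congr 3
          ring
  have a9 := le_of_mul_le_mul_left a8 a7
  have e5 : Real.exp ((2 * K + C + 11) * l) = (|t| + 2) ^ (2 * K + C + 11) := by
    rw [Real.rpow_def_of_pos (by linarith), mul_comm]
  rw [e5] at a9
  exact a9

/-- job Z3 -/
theorem hh (_h1 : S_LD) : S_H := hh'

end Pool.Agent.Q237.BD
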