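import Pool.Agent.Q237.BD.Vert

set_option autoImplicit false

/-!
Job P2: Perron's formula on the critical line.
-/

namespace Pool.Agent.Q237.BD

open Complex MeasureTheory Filter Topology Set
open Pool.Agent.Q286.BD

/-- `1 / ζ` with the value `0` at `1` -/
noncomputable def G (s : ℂ) : ℂ := if s = 1 then 0 else (riemannZeta s)⁻¹

theorem zeta_ne (hRH : RiemannHypothesis) {s : ℂ} (hs : 1 / 2 < s.re) (h1 : s ≠ 1) :
    riemannZeta s ≠ 0 := by
  intro h0
  have := hRH s h0 ?_ h1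
  · linarith
  · rintro ⟨n, hn⟩
    rw [hn] at hs
    have : ((-2 : ℂ) * ((n : ℂ) + 1)).re = -2 * ((n : ℝ) + 1) := by simp
    rw [this] at hs
    have : (0 : ℝ) ≤ n := Nat.cast_nonneg n
    linarith

theorem G_diff (hRH : RiemannHypothesis) {s : ℂ} (hs : 1 / 2 < s.re) (h1 : s ≠ 1) :
    DifferentiableAt ℂ G s := by
  have h2 : DifferentiableAt ℂ (fun s => (riemannZeta s)⁻¹) s :=
    (differentiableAt_riemannZeta h1).inv (zeta_ne hRH hs h1)
  refine h2.congr_of_eventuallyEq ?_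
  filter_upwards [isOpen_ne.mem_nhds h1] with w hw
  simp only [G]
  rw [if_neg hw]

theorem G_cont_one : ContinuousAt G 1 := by
  have h1 := riemannZeta_residue_one
  have h2 : Tendsto (fun s : ℂ => ((s - 1) * riemannZeta s)⁻¹ * (s - 1)) (𝓝[≠] 1) (𝓝 0) := by
    have h3 : Tendsto (fun s : ℂ => s - 1) (𝓝[≠] 1) (𝓝 0) := by
      have : ContinuousAt (fun s : ℂ => s - 1) 1 := by fun_prop
      have h4 := this.tendsto
      simp only [sub_self] at h4
      exact h4.mono_left nhdsWithin_le_nhds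
    have h5 := (h1.inv₀ one_ne_zero).mul h3
    simpa using h5
  have h6 : Tendsto G (𝓝[≠] 1) (𝓝 0) := by
    refine h2.congr' ?_
    filter_upwards [self_mem_nhdsWithin] with s hs
    have hs1 : s ≠ 1 := hs
    have hs2 : s - 1 ≠ 0 := sub_ne_zero.2 hs1
    simp only [G]
    rw [if_neg hs1, mul_inv, mul_comm, ← mul_assoc, mul_inv_cancel₀ hs2, one_mul]
  have h7 : G 1 = 0 := by simp [G]
  rw [continuousAt_iff_punctured_nhds, h7]
  exact h6

theorem G_cont (hRH : RiemannHypothesis) {s : ℂ} (hs : 1 / 2 < s.re) : ContinuousAt G s := by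
  by_cases h1 : s = 1
  · rw [h1]
    exact G_cont_one
  · exact (G_diff hRH hs h1).continuousAt

/-- bound to the right of `3/2` -/
theorem inv_zeta_far : ∃ C : ℝ, 0 < C ∧ ∀ s : ℂ, 3 / 2 ≤ s.re → ‖(riemannZeta s)⁻¹‖ ≤ C := by
  have hsum : Summable (fun n : ℕ => ((n : ℝ) ^ (3 / 2 : ℝ))⁻¹) := by
    rw [Real.summable_nat_rpow_inv]
    norm_num
  refine ⟨1 + ∑' n : ℕ, ((n : ℝ) ^ (3 / 2 : ℝ))⁻¹, ?_, fun s hs => ?_⟩
  · have : 0 ≤ ∑' n : ℕ, ((n : ℝ) ^ (3 / 2 : ℝ))⁻¹ := tsum_nonneg fun n => by positivity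
    linarith
  have h1 : 1 < s.re := by linarith
  have h2 := ArithmeticFunction.LSeries_zeta_mul_Lseries_moebius h1
  rw [ArithmeticFunction.LSeries_zeta_eq_riemannZeta h1] at h2
  have h3 : (riemannZeta s)⁻¹ = LSeries (fun n => ((ArithmeticFunction.moebius n : ℤ) : ℂ)) s :=
    inv_eq_of_mul_eq_one_right h2
  rw [h3]
  have h4 : ∀ n : ℕ, ‖LSeries.term (fun n => ((ArithmeticFunction.moebius n : ℤ) : ℂ)) s n‖ ≤
      ((n : ℝ) ^ (3 / 2 : ℝ))⁻¹ := by
    intro n
    rcases Nat.eq_zero_or_pos n with h0 | h0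
    · subst h0
      simp
    · rw [LSeries.norm_term_eq, if_neg (by omega)]
      have h5 : ‖((ArithmeticFunction.moebius n : ℤ) : ℂ)‖ ≤ 1 := by
        have h6 := ArithmeticFunction.abs_moebius_le_one (n := n)
        have h7 : ‖((ArithmeticFunction.moebius n : ℤ) : ℂ)‖ = ((|ArithmeticFunction.moebius n| : ℤ) : ℝ) := by
          rw [Complex.norm_intCast]
          push_cast
          rfl
        rw [h7]
        exact_mod_cast h6
      have hn1 : (1 : ℝ) ≤ n := by exact_mod_cast h0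
      rw [div_eq_mul_inv]
      calc ‖((ArithmeticFunction.moebius n : ℤ) : ℂ)‖ * ((n : ℝ) ^ s.re)⁻¹
          ≤ 1 * ((n : ℝ) ^ (3 / 2 : ℝ))⁻¹ := by
            gcongr
        _ = _ := one_mul _
  have h5 : ‖LSeries (fun n => ((ArithmeticFunction.moebius n : ℤ) : ℂ)) s‖ ≤
      ∑' n : ℕ, ((n : ℝ) ^ (3 / 2 : ℝ))⁻¹ := tsum_of_norm_bounded hsum.hasSum h4
  linarith

theorem G_bound (hRH : RiemannHypothesis) (h2 : S_lowb) : ∃ C : ℝ, 1 ≤ C ∧ ∀ (x0 : ℝ) (s : ℂ), 0 < x0 →
    1 / 2 + x0 ≤ s.re → ‖G s‖ ≤ C * (|s.im| + 16) ^ (C * Real.log (2 + 1 / x0)) := by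
  obtain ⟨C1, hC1, hb⟩ := h2 hRH
  obtain ⟨C2, hC2, hf⟩ := inv_zeta_far
  refine ⟨max (max C1 C2) 1, le_max_right _ _, fun x0 s hx0 hs => ?_⟩
  set C : ℝ := max (max C1 C2) 1
  have hCC1 : C1 ≤ C := (le_max_left _ _).trans (le_max_left _ _)
  have hCC2 : C2 ≤ C := (le_max_right _ _).trans (le_max_left _ _)
  have hCC : 1 ≤ C := le_max_right _ _
  have hl : 0 ≤ Real.log (2 + 1 / x0) := Real.log_nonneg (by
    have : 0 < 1 / x0 := by positivity
    linarith)
  have hbase : 1 ≤ |s.im| + 16 := by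
    have := abs_nonneg s.im
    linarith
  have hpow : 1 ≤ (|s.im| + 16) ^ (C * Real.log (2 + 1 / x0)) :=
    Real.one_le_rpow hbase (by positivity)
  have hle : ‖G s‖ ≤ ‖(riemannZeta s)⁻¹‖ := by
    simp only [G]
    split_ifs
    · simp
    · exact le_rfl
  rcases le_total s.re (3 / 2) with h | h
  · have hx := hb s.im (s.re - 1 / 2) (by linarith) (by linarith)
    have e1 : (1 / 2 + ((s.re - 1 / 2 : ℝ) : ℂ) + s.im * I : ℂ) = s := by
      push_cast
      have := Complex.re_add_im s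
      linear_combination this
    rw [e1] at hx
    have e2 : Real.log (2 + 1 / (s.re - 1 / 2)) ≤ Real.log (2 + 1 / x0) := by
      apply Real.log_le_log
      · have : 0 < 1 / (s.re - 1 / 2) := by
          apply div_pos one_pos
          linarith
        linarith
      · have : 1 / (s.re - 1 / 2) ≤ 1 / x0 := by
          apply one_div_le_one_div_of_le hx0
          linarith
        linarith
    have e3 : 0 ≤ Lam s.im := Real.log_nonneg hbase
    have e4 : C1 * Lam s.im * Real.log (2 + 1 / (s.re - 1 / 2)) ≤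
        C * Lam s.im * Real.log (2 + 1 / x0) := by
      have e8 : 0 ≤ Real.log (2 + 1 / (s.re - 1 / 2)) := Real.log_nonneg (by
        have : 0 < 1 / (s.re - 1 / 2) := by
          apply div_pos one_pos
          linarith
        linarith)
      gcongr
    have e5 : Real.exp (-(C * Lam s.im * Real.log (2 + 1 / x0))) ≤ ‖riemannZeta s‖ :=
      (Real.exp_le_exp.2 (neg_le_neg e4)).trans hx
    have e6 : ‖(riemannZeta s)⁻¹‖ ≤ Real.exp (C * Lam s.im * Real.log (2 + 1 / x0)) := by
      rw [norm_inv]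
      rw [Real.exp_neg] at e5
      rw [inv_le_comm₀ (lt_of_lt_of_le (by positivity) e5) (Real.exp_pos _)]
      exact e5
    have e7 : Real.exp (C * Lam s.im * Real.log (2 + 1 / x0)) =
        (|s.im| + 16) ^ (C * Real.log (2 + 1 / x0)) := by
      rw [Real.rpow_def_of_pos (by linarith)]
      congr 1
      unfold Lam
      ring
    rw [e7] at e6
    calc ‖G s‖ ≤ 1 * (|s.im| + 16) ^ (C * Real.log (2 + 1 / x0)) := by
          rw [one_mul]
          exact hle.trans e6
      _ ≤ _ := by gcongr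
  · calc ‖G s‖ ≤ C2 := hle.trans (hf s h)
      _ ≤ C * 1 := by rw [mul_one]; exact hCC2
      _ ≤ _ := by gcongr

/-- the integrand -/
noncomputable def Fi (φ : ℝ → ℝ) (L t : ℝ) (z : ℂ) : ℂ := G (cl t + z / L) * Lap φ z / z

theorem Fi_bound (hRH : RiemannHypothesis) (h2 : S_lowb) {β : ℝ} {φ : ℝ → ℝ} (hβ : 0 < β) (h : Wt β φ)
    {L a b t : ℝ} (hL : 0 < L) (ha : 0 < a) : ∃ M : ℝ, 0 < M ∧ ∀ z : ℂ, a ≤ z.re → z.re ≤ b →
    ‖Fi φ L t z‖ ≤ M / (1 + z.im ^ 2) := by
  obtain ⟨C, hC, hG⟩ := G_bound hRH h2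
  obtain ⟨ε, C1, c, hε, hC1, hc, hdec⟩ := h.dec
  set p : ℝ := C * Real.log (2 + 1 / (a / L)) with hp
  have haL : 0 < a / L := by positivity
  have hp0 : 0 ≤ p := by
    have : 0 ≤ Real.log (2 + 1 / (a / L)) := Real.log_nonneg (by
      have : 0 < 1 / (a / L) := by positivity
      linarith)
    positivity
  obtain ⟨M, hM, hgr⟩ := growth (|t| + 16) p c β hc hβ (by positivity) hp0
  refine ⟨C * (1 + 1 / L) ^ p * (C1 * Real.exp b) / a * M, by positivity, fun z hz1 hz2 => ?_⟩
  have hz0 : z ≠ 0 := by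
    intro h0
    rw [h0] at hz1
    simp at hz1
    linarith
  have hre : (cl t + z / L).re = 1 / 2 + z.re / L := by
    simp [cl]
  have him : (cl t + z / L).im = t + z.im / L := by
    simp [cl]
  have b1 := hG (a / L) (cl t + z / L) haL (by
    rw [hre]
    gcongr)
  rw [him, ← hp] at b1
  have b2 : (|t + z.im / L| + 16) ^ p ≤ (1 + 1 / L) ^ p * (|t| + 16 + |z.im|) ^ p := by
    rw [← Real.mul_rpow (by positivity) (by positivity)]
    apply Real.rpow_le_rpow (by positivity) _ hp0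
    have h3 : |t + z.im / L| ≤ |t| + |z.im| / L := by
      have := abs_add_le t (z.im / L)
      rwa [abs_div, abs_of_pos hL] at this
    have h4 : 0 ≤ 1 / L * (|t| + 16) := by positivity
    have h5 : 0 ≤ |z.im| := abs_nonneg _
    have h6 : (1 + 1 / L) * (|t| + 16 + |z.im|) = (|t| + 16 + |z.im| / L) + 1 / L * (|t| + 16) + |z.im| := by
      field_simp
      ring
    rw [h6]
    linarith
  have b3 : ‖Lap φ z‖ ≤ C1 * Real.exp b * Real.exp (-(c * |z.im| ^ β)) := by
    refine (hdec z).trans ?_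
    rw [mul_assoc, ← Real.exp_add]
    apply mul_le_mul_of_nonneg_left _ hC1.le
    apply Real.exp_le_exp.2
    have h7 : max z.re 0 = z.re := max_eq_left (by linarith)
    have h8 : 0 ≤ ε * max (-z.re) 0 := mul_nonneg hε.le (le_max_right _ _)
    rw [h7]
    linarith
  have b4 : a ≤ ‖z‖ := hz1.trans (Complex.re_le_norm z)
  unfold Fi
  rw [norm_div, norm_mul]
  calc ‖G (cl t + z / L)‖ * ‖Lap φ z‖ / ‖z‖
      ≤ (C * ((1 + 1 / L) ^ p * (|t| + 16 + |z.im|) ^ p)) *
          (C1 * Real.exp b * Real.exp (-(c * |z.im| ^ β))) / a := by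
        gcongr
        refine b1.trans ?_
        gcongr
    _ = C * (1 + 1 / L) ^ p * (C1 * Real.exp b) / a *
          ((|t| + 16 + |z.im|) ^ p * Real.exp (-(c * |z.im| ^ β))) := by ring
    _ ≤ C * (1 + 1 / L) ^ p * (C1 * Real.exp b) / a * (M / (1 + z.im ^ 2)) := by
        gcongr
        exact hgr z.im
    _ = _ := by ring

theorem Fi_cont (hRH : RiemannHypothesis) {β : ℝ} {φ : ℝ → ℝ} (h : Wt β φ)
    {L t : ℝ} (hL : 0 < L) {z : ℂ} (hz : 0 < z.re) : ContinuousAt (Fi φ L t) z := by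
  have hz0 : z ≠ 0 := by
    intro h0
    rw [h0] at hz
    simp at hz
  have hre : (cl t + z / L).re = 1 / 2 + z.re / L := by
    simp [cl]
  have h1 : ContinuousAt (fun z : ℂ => G (cl t + z / L)) z := by
    have h3 : ContinuousAt (fun z : ℂ => cl t + z / L) z := by fun_prop
    exact ContinuousAt.comp (g := G) (G_cont hRH (by
      rw [hre]
      have : 0 < z.re / L := by positivity
      linarith)) h3
  have h2 : ContinuousAt (Lap φ) z := (Lap_diff h).continuous.continuousAt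
  exact (h1.mul h2).div continuousAt_id hz0

theorem Fi_diff (hRH : RiemannHypothesis) {β : ℝ} {φ : ℝ → ℝ} (h : Wt β φ)
    {L t : ℝ} (hL : 0 < L) {z : ℂ} (hz : 0 < z.re) (hz1 : cl t + z / L ≠ 1) :
    DifferentiableAt ℂ (Fi φ L t) z := by
  have hz0 : z ≠ 0 := by
    intro h0
    rw [h0] at hz
    simp at hz
  have hre : (cl t + z / L).re = 1 / 2 + z.re / L := by
    simp [cl]
  have h1 : DifferentiableAt ℂ (fun z : ℂ => G (cl t + z / L)) z := by
    have h3 : DifferentiableAt ℂ (fun z : ℂ => cl t + z / L) z := by fun_prop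
    exact DifferentiableAt.comp (g := G) z (G_diff hRH (by
      rw [hre]
      have : 0 < z.re / L := by positivity
      linarith) hz1) h3
  have h2 : DifferentiableAt ℂ (Lap φ) z := Lap_diff h z
  exact (h1.mul h2).div differentiableAt_id hz0

theorem Fi_eq {φ : ℝ → ℝ} {L a t : ℝ} (hL : 0 < L) :
    (fun K : ℝ => Fi φ L t (a + K * I)) =ᵐ[volume]
      (fun K : ℝ => (riemannZeta (cl t + (a + K * I) / L))⁻¹ * Lap φ (a + K * I) / (a + K * I)) := by
  have h1 : ({-(t * L)} : Set ℝ)ᶜ ∈ ae (volume : Measure ℝ) := by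
    rw [compl_mem_ae_iff]
    exact measure_singleton _
  filter_upwards [h1] with K hK
  have hK1 : cl t + (a + K * I) / L ≠ 1 := by
    intro h2
    apply hK
    rw [mem_singleton_iff]
    have h3 := congrArg Complex.im h2
    simp [cl] at h3
    field_simp at h3
    linarith
  simp only [Fi, G]
  rw [if_neg hK1]

/-- Perron's formula on the critical line -/
theorem perRH (h1 : S_per) (h2 : S_lowb) : S_perRH := by
  intro hRH β φ hβ hφ L a t hL ha
  have hcont : ∀ c : ℝ, 0 < c → Integrable (fun K : ℝ => Fi φ L t (c + K * I)) := by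
    intro c hc
    obtain ⟨M, hM, hMb⟩ := Fi_bound hRH h2 hβ hφ (b := c) (t := t) hL hc
    refine vint (M := M) ?_ ?_
    · intro z hz
      exact (Fi_cont hRH hφ hL (by rw [mem_setOf_eq] at hz; rw [hz]; exact hc)).continuousWithinAt
    · intro z hz
      exact hMb z hz.ge hz.le
  refine ⟨(hcont a ha).congr (Fi_eq hL), ?_⟩
  set b : ℝ := max a (3 * L / 4) with hb
  have hab : a ≤ b := le_max_left _ _
  have hLb : 3 * L / 4 ≤ b := le_max_right _ _
  have hb0 : 0 < b := by linarith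
  obtain ⟨M, hM, hMb⟩ := Fi_bound hRH h2 hβ hφ (b := b) (t := t) hL ha
  have hshift := vshift (F := Fi φ L t) (M := M) hab {z : ℂ | cl t + z / L = 1} ?_ ?_ ?_ hMb
  · have e1 := h1 β φ hβ hφ L b (cl t) hL hb0 (by
      have h3 : (cl t).re = 1 / 2 := by simp [cl]
      rw [h3]
      have h4 : 3 / 4 ≤ b / L := by
        rw [le_div_iff₀ hL]
        linarith
      linarith)
    rw [e1, ← integral_congr_ae (Fi_eq hL), ← integral_congr_ae (Fi_eq hL), hshift]
  · apply Set.Subsingleton.countable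
    intro z hz w hw
    have hz' : cl t + z / L = 1 := hz
    have hw' : cl t + w / L = 1 := hw
    have h5 : z / L = w / L := by
      linear_combination hz' - hw'
    have hL0 : (L : ℂ) ≠ 0 := by exact_mod_cast hL.ne'
    exact (div_left_inj' hL0).1 h5
  · intro z hz
    exact (Fi_cont hRH hφ hL (by linarith [hz.1])).continuousWithinAt
  · intro z hz1 hz2 hz3
    exact Fi_diff hRH hφ hL (by linarith) hz3

end Pool.Agent.Q237.BD
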