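import Pool.Agent.Q237.BD.Inv
import Pool.Agent.Q237.BD.PerRH

set_option autoImplicit false

/-!
Job P5 (b): the limit near a zero.
-/

namespace Pool.Agent.Q237.BD

open Complex MeasureTheory Filter Topology Set
open Pool.Agent.Q286.BD

/-- `exp (C log²)` growth against almost exponential decay -/
theorem growth2 (A C c β : ℝ) (hc : 0 < c) (hβ : 0 < β) (hA : 1 ≤ A) (hC : 0 < C) :
    ∃ M : ℝ, 0 < M ∧ ∀ K : ℝ, Real.exp (C * Real.log (A + |K|) ^ 2) * Real.exp (-(c * |K| ^ β)) ≤
      M / (1 + K ^ 2) := by
  obtain ⟨M, hM, hgr⟩ := growth 1 0 (c / 2) β (by positivity) hβ (by norm_num) le_rfl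
  set δ : ℝ := β / 4 with hδ
  have hδ0 : 0 < δ := by positivity
  set η : ℝ := c / 2 * δ ^ 2 / (C * 2 ^ β) with hη
  have hη0 : 0 < η := by positivity
  set D : ℝ := C / δ ^ 2 * (η * (2 * A) ^ β + 1 / (4 * η)) with hD
  refine ⟨Real.exp D * M, by positivity, fun K => ?_⟩
  have hK0 : 0 ≤ |K| := abs_nonneg K
  have hl0 : 0 ≤ Real.log (A + |K|) := Real.log_nonneg (by linarith)
  have e1 : Real.log (A + |K|) ≤ (A + |K|) ^ δ / δ := Real.log_le_rpow_div (by positivity) hδ0
  have e2 : Real.log (A + |K|) ^ 2 ≤ ((A + |K|) ^ δ / δ) ^ 2 := pow_le_pow_left₀ hl0 e1 2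
  have e3 : ((A + |K|) ^ δ / δ) ^ 2 = (A + |K|) ^ (β / 2) / δ ^ 2 := by
    rw [div_pow, ← Real.rpow_natCast ((A + |K|) ^ δ) 2, ← Real.rpow_mul (by positivity)]
    congr 2
    rw [hδ]
    push_cast
    ring
  set u : ℝ := (A + |K|) ^ (β / 2) with hu
  have hu0 : 0 ≤ u := by positivity
  have e4 : u ≤ η * u ^ 2 + 1 / (4 * η) := by
    have h1 : 0 ≤ (2 * η * u - 1) ^ 2 / (4 * η) := by positivity
    have h2 : (2 * η * u - 1) ^ 2 / (4 * η) = η * u ^ 2 - u + 1 / (4 * η) := by
      field_simp
      ring
    linarith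
  have e5 : u ^ 2 = (A + |K|) ^ β := by
    rw [hu, ← Real.rpow_natCast ((A + |K|) ^ (β / 2)) 2, ← Real.rpow_mul (by positivity)]
    congr 1
    push_cast
    ring
  have e6 : (A + |K|) ^ β ≤ (2 * A) ^ β + 2 ^ β * |K| ^ β := by
    rw [← Real.mul_rpow (by norm_num) hK0]
    rcases le_total A (|K|) with h | h
    · have h1 : (A + |K|) ^ β ≤ (2 * |K|) ^ β := Real.rpow_le_rpow (by positivity) (by linarith) hβ.le
      have h2 : 0 ≤ (2 * A) ^ β := by positivity
      linarith
    · have h1 : (A + |K|) ^ β ≤ (2 * A) ^ β := Real.rpow_le_rpow (by positivity) (by linarith) hβ.le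
      have h2 : 0 ≤ (2 * |K|) ^ β := by positivity
      linarith
  have e7 : C * Real.log (A + |K|) ^ 2 ≤ D + c / 2 * |K| ^ β := by
    calc C * Real.log (A + |K|) ^ 2 ≤ C * (u / δ ^ 2) := by
          rw [← e3]
          gcongr
      _ = C / δ ^ 2 * u := by ring
      _ ≤ C / δ ^ 2 * (η * ((2 * A) ^ β + 2 ^ β * |K| ^ β) + 1 / (4 * η)) := by
          gcongr
          rw [e5] at e4
          refine e4.trans ?_
          gcongr
      _ = D + C / δ ^ 2 * η * 2 ^ β * |K| ^ β := by
          rw [hD]
          ring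
      _ = D + c / 2 * |K| ^ β := by
          congr 2
          rw [hη]
          have : (0 : ℝ) < 2 ^ β := by positivity
          field_simp
  have e8 := hgr K
  rw [Real.rpow_zero, one_mul] at e8
  calc Real.exp (C * Real.log (A + |K|) ^ 2) * Real.exp (-(c * |K| ^ β))
      ≤ Real.exp (D + c / 2 * |K| ^ β) * Real.exp (-(c * |K| ^ β)) := by gcongr
    _ = Real.exp D * Real.exp (-(c / 2 * |K| ^ β)) := by
        rw [← Real.exp_add, ← Real.exp_add]
        congr 1
        ring
    _ ≤ Real.exp D * (M / (1 + K ^ 2)) := by gcongr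
    _ = _ := by ring

theorem Lam_ge (t : ℝ) : 2.7 ≤ Lam t := by
  unfold Lam
  have h1 : Real.log 16 ≤ Real.log (|t| + 16) := by
    apply Real.log_le_log (by norm_num)
    have := abs_nonneg t
    linarith
  have h2 : Real.log 16 = 4 * Real.log 2 := by
    rw [show (16 : ℝ) = 2 ^ 4 by norm_num, Real.log_pow]
    norm_num
  have h3 := Real.log_two_gt_d9
  rw [h2] at h1
  linarith

theorem log_Lam_ge (t : ℝ) : 1 ≤ Real.log (Lam t) := by
  have h1 : Real.exp 1 ≤ Lam t := by
    unfold Lam
    have h1 : Real.log 16 ≤ Real.log (|t| + 16) := by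
      apply Real.log_le_log (by norm_num)
      have := abs_nonneg t
      linarith
    have h2 : Real.log 16 = 4 * Real.log 2 := by
      rw [show (16 : ℝ) = 2 ^ 4 by norm_num, Real.log_pow]
      norm_num
    have h3 := Real.log_two_gt_d9
    have h4 := Real.exp_one_lt_d9
    rw [h2] at h1
    linarith
  have h2 : 0 < Lam t := (Real.exp_pos 1).trans_le h1
  exact (Real.le_log_iff_exp_le h2).2 h1

theorem ML_le (t : ℝ) : ML t ≤ Lam t := by
  unfold ML
  have h1 := Lam_ge t
  exact div_le_self (by linarith) (log_Lam_ge t)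

theorem ML_nonneg (t : ℝ) : 0 ≤ ML t := by
  unfold ML
  have h1 := Lam_ge t
  have h2 := log_Lam_ge t
  positivity

theorem Lam_mono {t T : ℝ} (h : |t| ≤ T) : Lam t ≤ Real.log (T + 16) := by
  unfold Lam
  apply Real.log_le_log
  · have := abs_nonneg t
    linarith
  · linarith

/-- local factorisation of zeta at a point of the line, under RH -/
theorem local_fac (hRH : RiemannHypothesis) (g : ℝ) :
    ∃ h : ℂ → ℂ, AnalyticAt ℂ h (cl g) ∧ h (cl g) ≠ 0 ∧
      ∀ᶠ z in 𝓝 (cl g), riemannZeta z = (z - cl g) ^ mz (cl g) * h z := by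
  have hre : (cl g).re = 1 / 2 := by simp [cl]
  have hne : cl g ≠ 1 := by
    intro h
    rw [h] at hre
    norm_num at hre
  have han : AnalyticAt ℂ riemannZeta (cl g) := by
    have hd : DifferentiableOn ℂ riemannZeta {1}ᶜ := fun s hs =>
      (differentiableAt_riemannZeta hs).differentiableWithinAt
    exact hd.analyticAt (isOpen_compl_singleton.mem_nhds hne)
  have htop : analyticOrderAt riemannZeta (cl g) ≠ ⊤ := by
    intro h0
    rw [analyticOrderAt_eq_top] at h0
    have h1 : Tendsto (fun δ : ℝ => cl g + δ) (𝓝[>] 0) (𝓝 (cl g)) := by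
      have h2 : ContinuousAt (fun δ : ℝ => cl g + δ) 0 := by fun_prop
      have h3 := h2.tendsto
      simp only [ofReal_zero, add_zero] at h3
      exact h3.mono_left nhdsWithin_le_nhds
    have h4 := h1.eventually h0
    have h5 : ∀ᶠ δ : ℝ in 𝓝[>] 0, δ < 1 / 4 := by
      apply nhdsWithin_le_nhds
      exact gt_mem_nhds (by norm_num)
    obtain ⟨δ, hδ, hδ1, hδ2⟩ := (h4.and (h5.and self_mem_nhdsWithin)).exists
    have hδ3 : 0 < δ := hδ2
    refine zeta_ne hRH (s := cl g + δ) ?_ ?_ hδ
    · rw [add_re, hre, ofReal_re]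
      linarith
    · intro h6
      have h7 := congrArg Complex.re h6
      rw [add_re, hre, ofReal_re, one_re] at h7
      linarith
  obtain ⟨h, h1, h2, h3⟩ := (han.analyticOrderNatAt_eq_iff htop).1 (rfl : mz (cl g) = mz (cl g))
  exact ⟨h, h1, h2, by simpa [smul_eq_mul] using h3⟩

theorem mz_pos (hRH : RiemannHypothesis) {g : ℝ} (hg : riemannZeta (cl g) = 0) : 1 ≤ mz (cl g) := by
  by_contra hlt
  have h0 : mz (cl g) = 0 := by omega
  obtain ⟨h, h1, h2, h3⟩ := local_fac hRH g
  have h4 := h3.self_of_nhds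
  rw [hg, h0, pow_zero, one_mul] at h4
  exact h2 h4.symm

theorem ratio_lim (hRH : RiemannHypothesis) {g : ℝ} (hg : riemannZeta (cl g) = 0) (x K : ℝ) :
    Tendsto (fun L : ℝ => riemannZeta (cl (g + x / L)) * (riemannZeta (cl (g + x / L) + (1 + K * I) / L))⁻¹)
      atTop (𝓝 ((x * I / (x * I + (1 + K * I))) ^ mz (cl g))) := by
  obtain ⟨h, h1, h2, h3⟩ := local_fac hRH g
  set m := mz (cl g) with hm
  have hw : (x * I + (1 + K * I) : ℂ) ≠ 0 := by
    intro h0
    have := congrArg Complex.re h0
    simp at this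
  have t0 : ∀ w : ℂ, Tendsto (fun L : ℝ => cl g + w / L) atTop (𝓝 (cl g)) := by
    intro w
    have h4 : Tendsto (fun L : ℝ => w / (L : ℂ)) atTop (𝓝 0) := by
      rw [tendsto_zero_iff_norm_tendsto_zero]
      have h5 : Tendsto (fun L : ℝ => ‖w‖ / L) atTop (𝓝 0) := tendsto_id.const_div_atTop _
      refine h5.congr' ?_
      filter_upwards [eventually_gt_atTop 0] with L hL
      rw [norm_div, Complex.norm_real, Real.norm_eq_abs, abs_of_pos hL]
    simpa using h4.const_add (cl g)
  have t1 := t0 (x * I)
  have t2 := t0 (x * I + (1 + K * I))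
  have c1 : Tendsto (fun L : ℝ => h (cl g + x * I / L)) atTop (𝓝 (h (cl g))) :=
    h1.continuousAt.tendsto.comp t1
  have c2 : Tendsto (fun L : ℝ => h (cl g + (x * I + (1 + K * I)) / L)) atTop (𝓝 (h (cl g))) :=
    h1.continuousAt.tendsto.comp t2
  have c3 := (c1.mul (c2.inv₀ h2)).const_mul ((x * I / (x * I + (1 + K * I))) ^ m)
  rw [mul_inv_cancel₀ h2, mul_one] at c3
  refine c3.congr' ?_
  filter_upwards [t1.eventually h3, t2.eventually h3, eventually_gt_atTop 0] with L e1 e2 hL
  have hL0 : (L : ℂ) ≠ 0 := by exact_mod_cast hL.ne'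
  have e3 : cl (g + x / L) = cl g + x * I / L := by
    simp only [cl]
    push_cast
    ring
  have e4 : cl (g + x / L) + (1 + K * I) / L = cl g + (x * I + (1 + K * I)) / L := by
    rw [e3]
    ring
  rw [e4, e3, e1, e2, add_sub_cancel_left, add_sub_cancel_left, mul_inv, div_pow, div_pow, div_pow]
  field_simp

theorem lim (h1 : S_inv) (h2 : S_perRH) (h3 : S_ratio) (h4 : S_lowb) (h5 : S_upz) : S_lim := by
  intro hRH β φ hβ hφ g x hg
  set m := mz (cl g) with hm
  have hm1 : 1 ≤ m := mz_pos hRH hg
  rw [← h1 β φ hβ hφ m x hm1]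
  obtain ⟨C1, hC1, hr⟩ := h3 hRH
  obtain ⟨C2, hC2, hl⟩ := h4 hRH
  obtain ⟨C3, hC3, hu⟩ := h5 hRH
  obtain ⟨ε, C4, c, hε, hC4, hc, hdec⟩ := hφ.dec
  set T : ℝ := |g| + |x| with hT
  have hT0 : 0 ≤ T := by positivity
  set A0 : ℝ := T + 16 with hA0
  set C : ℝ := C1 + C2 + C3 with hC
  have hC0 : 0 < C := by positivity
  obtain ⟨M, hM, hgr⟩ := growth2 A0 C c β hc hβ (by linarith) hC0
  set Fn : ℝ → ℝ → ℂ := fun L K => riemannZeta (cl (g + x / L)) *
    ((riemannZeta (cl (g + x / L) + (1 + K * I) / L))⁻¹ * Lap φ (1 + K * I) / (1 + K * I)) with hFn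
  have key : Tendsto (fun L : ℝ => ∫ K : ℝ, Fn L K) atTop
      (𝓝 (∫ K : ℝ, (x * I / (x * I + (1 + K * I))) ^ m * Lap φ (1 + K * I) / (1 + K * I))) := by
    refine tendsto_integral_filter_of_dominated_convergence (fun K => C4 * Real.exp 1 * M / (1 + K ^ 2)) ?_ ?_
      integrable_bd ?_
    · filter_upwards [eventually_gt_atTop 0] with L hL
      have h6 := (h2 hRH β φ hβ hφ L 1 (g + x / L) hL one_pos).1
      simp only [ofReal_one] at h6
      exact (h6.const_mul _).aestronglyMeasurable
    · filter_upwards [eventually_ge_atTop 1] with L hL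
      refine Eventually.of_forall fun K => ?_
      have hL0 : 0 < L := by linarith
      set t : ℝ := g + x / L with ht
      have htT : |t| ≤ T := by
        have h7 := abs_add_le g (x / L)
        have h8 : |x / L| ≤ |x| := by
          rw [abs_div, abs_of_pos hL0]
          exact div_le_self (abs_nonneg x) hL
        linarith
      have hK0 : 0 ≤ |K| := abs_nonneg K
      have hAK : 1 ≤ A0 + |K| := by linarith
      have hlogAK : Real.log A0 ≤ Real.log (A0 + |K|) := Real.log_le_log (by linarith) (by linarith)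
      have hlogA : 0 ≤ Real.log A0 := Real.log_nonneg (by linarith)
      have hlog2K : Real.log (2 + |K|) ≤ Real.log (A0 + |K|) := Real.log_le_log (by linarith) (by linarith)
      have hlog2K0 : 0 ≤ Real.log (2 + |K|) := Real.log_nonneg (by linarith)
      have hMLt : ML t ≤ Real.log A0 := (ML_le t).trans (Lam_mono htT)
      have hML0 := ML_nonneg t
      set ℓ : ℝ := Real.log (A0 + |K|) with hℓ
      have hℓ0 : 1 ≤ ℓ := by
        have h9 := Lam_ge 0
        have h10 : Lam 0 ≤ Real.log (T + 16) := Lam_mono (by simpa using hT0)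
        linarith
      have hpt : cl t + (1 + K * I) / L = 1 / 2 + ((1 / L : ℝ) : ℂ) + ((t + K / L : ℝ) : ℂ) * I := by
        simp only [cl]
        push_cast
        ring
      -- the ratio
      have hrat : ‖riemannZeta (cl t)‖ * ‖(riemannZeta (cl t + (1 + K * I) / L))⁻¹‖ ≤ Real.exp (C * ℓ ^ 2) := by
        rw [hpt]
        rcases le_or_gt |K| L with hK | hK
        · have h11 := hr t (K / L) (1 / L) (by positivity) (by
            rw [div_le_one hL0]
            exact hL) (by
            rw [abs_div, abs_of_pos hL0]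
            have h12 : |K| / L ≤ 1 := by
              rw [div_le_one hL0]
              exact hK
            have := abs_nonneg t
            linarith)
          have h13 : |K / L| / (1 / L) = |K| := by
            rw [abs_div, abs_of_pos hL0]
            field_simp
          rw [h13, ← ofReal_add] at h11
          have h14 : Real.exp (C1 * ML t * Real.log (2 + |K|)) ≤ Real.exp (C * ℓ ^ 2) := by
            apply Real.exp_le_exp.2
            calc C1 * ML t * Real.log (2 + |K|) ≤ C * ℓ * ℓ := by
                  have h15 : C1 ≤ C := by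
                    rw [hC]
                    linarith
                  have h16 : ML t ≤ ℓ := hMLt.trans hlogAK
                  gcongr
              _ = C * ℓ ^ 2 := by ring
          rw [norm_inv]
          rcases (norm_nonneg (riemannZeta (1 / 2 + ((1 / L : ℝ) : ℂ) + ((t + K / L : ℝ) : ℂ) * I))).eq_or_lt with h0 | h0
          · rw [← h0]
            simp
            positivity
          · rw [← div_eq_mul_inv, div_le_iff₀ h0]
            refine h11.trans ?_
            gcongr
        · have h11 := hu t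
          have h12 := hl (t + K / L) (1 / L) (by positivity) (by
            rw [div_le_one hL0]
            exact hL)
          have h13 : ‖(riemannZeta (1 / 2 + ((1 / L : ℝ) : ℂ) + ((t + K / L : ℝ) : ℂ) * I))⁻¹‖ ≤
              Real.exp (C2 * Lam (t + K / L) * Real.log (2 + 1 / (1 / L))) := by
            rw [norm_inv]
            rw [Real.exp_neg] at h12
            rw [inv_le_comm₀ (lt_of_lt_of_le (by positivity) h12) (Real.exp_pos _)]
            exact h12
          have h14 : Lam (t + K / L) ≤ ℓ := by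
            unfold Lam
            apply Real.log_le_log
            · have := abs_nonneg (t + K / L)
              linarith
            · have h15 := abs_add_le t (K / L)
              have h16 : |K / L| ≤ |K| := by
                rw [abs_div, abs_of_pos hL0]
                exact div_le_self (abs_nonneg K) hL
              linarith
          have h17 : Real.log (2 + 1 / (1 / L)) ≤ ℓ := by
            rw [one_div_one_div]
            refine le_trans ?_ hlog2K
            apply Real.log_le_log (by linarith) (by linarith)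
          have h18 : 0 ≤ Real.log (2 + 1 / (1 / L)) := by
            rw [one_div_one_div]
            exact Real.log_nonneg (by linarith)
          have h19 : 0 ≤ Lam (t + K / L) := by
            have := Lam_ge (t + K / L)
            linarith
          calc ‖riemannZeta (cl t)‖ * ‖(riemannZeta (1 / 2 + ((1 / L : ℝ) : ℂ) + ((t + K / L : ℝ) : ℂ) * I))⁻¹‖
              ≤ Real.exp (C3 * ML t) * Real.exp (C2 * Lam (t + K / L) * Real.log (2 + 1 / (1 / L))) := by
                gcongr
            _ = Real.exp (C3 * ML t + C2 * Lam (t + K / L) * Real.log (2 + 1 / (1 / L))) := by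
                rw [Real.exp_add]
            _ ≤ Real.exp (C * ℓ ^ 2) := by
                apply Real.exp_le_exp.2
                have h20 : C3 * ML t ≤ C3 * (ℓ * ℓ) := by
                  have h21 : ML t ≤ ℓ := hMLt.trans hlogAK
                  have h22 : ℓ ≤ ℓ * ℓ := by nlinarith
                  gcongr
                  linarith
                have h23 : C2 * Lam (t + K / L) * Real.log (2 + 1 / (1 / L)) ≤ C2 * ℓ * ℓ := by
                  gcongr
                have h24 : 0 ≤ C1 * (ℓ * ℓ) := by positivity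
                calc C3 * ML t + C2 * Lam (t + K / L) * Real.log (2 + 1 / (1 / L)) ≤
                      C3 * (ℓ * ℓ) + C2 * ℓ * ℓ + C1 * (ℓ * ℓ) := by linarith
                  _ = C * ℓ ^ 2 := by
                      rw [hC]
                      ring
      have hlap : ‖Lap φ (1 + K * I)‖ ≤ C4 * Real.exp 1 * Real.exp (-(c * |K| ^ β)) := by
        refine (hdec _).trans ?_
        have e1 : ((1 : ℂ) + K * I).re = 1 := by simp
        have e2 : ((1 : ℂ) + K * I).im = K := by simp
        rw [e1, e2]
        have e3 : max (1 : ℝ) 0 - ε * max (-1 : ℝ) 0 - c * |K| ^ β = 1 + -(c * |K| ^ β) := by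
          rw [max_eq_left (by norm_num : (0 : ℝ) ≤ 1), max_eq_right (by norm_num : (-1 : ℝ) ≤ 0)]
          ring
        rw [e3, Real.exp_add]
        apply le_of_eq
        ring
      have hden : 1 ≤ ‖(1 + K * I : ℂ)‖ := by
        have := Complex.re_le_norm (1 + K * I : ℂ)
        simpa using this
      rw [hFn]
      simp only
      rw [norm_mul, norm_div, norm_mul]
      calc ‖riemannZeta (cl t)‖ * (‖(riemannZeta (cl t + (1 + K * I) / L))⁻¹‖ * ‖Lap φ (1 + K * I)‖ / ‖(1 + K * I : ℂ)‖)
          = (‖riemannZeta (cl t)‖ * ‖(riemannZeta (cl t + (1 + K * I) / L))⁻¹‖) * ‖Lap φ (1 + K * I)‖ / ‖(1 + K * I : ℂ)‖ := by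
            ring
        _ ≤ Real.exp (C * ℓ ^ 2) * (C4 * Real.exp 1 * Real.exp (-(c * |K| ^ β))) / 1 := by gcongr
        _ = C4 * Real.exp 1 * (Real.exp (C * ℓ ^ 2) * Real.exp (-(c * |K| ^ β))) := by ring
        _ ≤ C4 * Real.exp 1 * (M / (1 + K ^ 2)) := by
            gcongr
            exact hgr K
        _ = _ := by ring
    · refine Eventually.of_forall fun K => ?_
      have h6 := (ratio_lim hRH hg x K).mul_const (Lap φ (1 + K * I) / (1 + K * I))
      have e1 : (x * I / (x * I + (1 + K * I))) ^ mz (cl g) * (Lap φ (1 + K * I) / (1 + K * I)) =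
          (x * I / (x * I + (1 + K * I))) ^ m * Lap φ (1 + K * I) / (1 + K * I) := by
        rw [← hm]
        ring
      rw [e1] at h6
      refine h6.congr fun L => ?_
      rw [hFn]
      simp only
      ring
  have key2 := key.const_mul (1 / (2 * (Real.pi : ℂ)))
  refine key2.congr' ?_
  filter_upwards [eventually_gt_atTop 0] with L hL
  have h6 := (h2 hRH β φ hβ hφ L 1 (g + x / L) hL one_pos).2
  simp only [ofReal_one] at h6
  rw [h6, hFn]
  simp only
  rw [integral_const_mul]
  ring

end Pool.Agent.Q237.BD
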