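import Pool.Agent.Q153.BD.Orth
import Pool.Agent.Helper625.Planch

set_option autoImplicit false

/-!
Job M1: Plancherel for the Mellin transform of the Báez-Duarte differences.
-/

namespace Pool.Agent.Q237.BD

open Complex MeasureTheory Filter Topology Set
open Pool.Agent.Q286.BD
open scoped FourierTransform Real

theorem fr_int {n : ℕ} (hn : 1 ≤ n) {s : ℂ} (h0 : 0 < s.re) (h1 : s.re < 1) :
    IntegrableOn (fun y : ℝ => ((Int.fract (y / (n : ℝ)) : ℝ) : ℂ) * (y : ℂ) ^ (-s - 1)) (Ioi 0) := by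
  have hn1 : (1 : ℝ) ≤ n := by exact_mod_cast hn
  have hn0 : (0 : ℝ) < n := by linarith
  have hmeas : AEStronglyMeasurable (fun y : ℝ => ((Int.fract (y / (n : ℝ)) : ℝ) : ℂ) * (y : ℂ) ^ (-s - 1))
      (volume.restrict (Ioi 0)) := by
    refine AEStronglyMeasurable.mul ?_ ?_
    · exact (Complex.measurable_ofReal.comp
        (measurable_fract.comp (measurable_id.div_const _))).aestronglyMeasurable
    · refine ContinuousOn.aestronglyMeasurable ?_ measurableSet_Ioi
      intro y hy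
      refine ContinuousAt.continuousWithinAt ?_
      exact Complex.continuousAt_ofReal_cpow_const y _ (Or.inr (ne_of_gt (mem_Ioi.mp hy)))
  rw [← Ioc_union_Ioi_eq_Ioi (zero_le_one : (0 : ℝ) ≤ 1)]
  have hre : (-s - 1).re = -s.re - 1 := by simp
  refine IntegrableOn.union ?_ ?_
  · have h2 : IntegrableOn (fun y : ℝ => y ^ (-s.re)) (Ioc 0 1) := by
      rw [← intervalIntegrable_iff_integrableOn_Ioc_of_le zero_le_one]
      exact intervalIntegral.intervalIntegrable_rpow' (by linarith)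
    refine h2.mono' (hmeas.mono_measure (Measure.restrict_mono Ioc_subset_Ioi_self le_rfl)) ?_
    rw [ae_restrict_iff' measurableSet_Ioc]
    refine Eventually.of_forall fun y hy => ?_
    have hy0 : (0 : ℝ) < y := hy.1
    rw [norm_mul, Complex.norm_real, Real.norm_eq_abs, abs_of_nonneg (Int.fract_nonneg _),
      Complex.norm_cpow_eq_rpow_re_of_pos hy0, hre]
    have h3 : Int.fract (y / (n : ℝ)) ≤ y := by
      have h4 : Int.fract (y / (n : ℝ)) ≤ y / n := by
        have h5 := Int.floor_nonneg.2 (div_nonneg hy0.le hn0.le : 0 ≤ y / (n : ℝ))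
        have h6 : (0 : ℝ) ≤ (⌊y / (n : ℝ)⌋ : ℤ) := by exact_mod_cast h5
        rw [Int.fract]
        linarith
      exact h4.trans (div_le_self hy0.le hn1)
    calc Int.fract (y / (n : ℝ)) * y ^ (-s.re - 1) ≤ y * y ^ (-s.re - 1) := by gcongr
      _ = y ^ (-s.re) := by
          nth_rewrite 1 [← Real.rpow_one y]
          rw [← Real.rpow_add hy0]
          congr 1
          ring
  · have h2 : IntegrableOn (fun y : ℝ => y ^ (-s.re - 1)) (Ioi 1) :=
      integrableOn_Ioi_rpow_of_lt (by linarith) one_pos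
    refine h2.mono' (hmeas.mono_measure (Measure.restrict_mono (Ioi_subset_Ioi zero_le_one) le_rfl)) ?_
    rw [ae_restrict_iff' measurableSet_Ioi]
    refine Eventually.of_forall fun y hy => ?_
    have hy0 : (0 : ℝ) < y := lt_trans one_pos hy
    rw [norm_mul, Complex.norm_real, Real.norm_eq_abs, abs_of_nonneg (Int.fract_nonneg _),
      Complex.norm_cpow_eq_rpow_re_of_pos hy0, hre]
    exact mul_le_of_le_one_left (by positivity) (Int.fract_lt_one _).le

/-- **the Mellin transform of the fractional part** -/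
theorem fr_mel {n : ℕ} (hn : 1 ≤ n) {s : ℂ} (h0 : 0 < s.re) (h1 : s.re < 1) :
    ∫ y in Ioi (0 : ℝ), ((Int.fract (y / (n : ℝ)) : ℝ) : ℂ) * (y : ℂ) ^ (-s - 1) =
      -((n : ℂ) ^ (-s) * riemannZeta s / s) := by
  have hn1 : (1 : ℝ) ≤ n := by exact_mod_cast hn
  have hn0 : (0 : ℝ) < n := by linarith
  have hs1 : s ≠ 1 := by
    intro h
    rw [h] at h1
    simp at h1
  have hint := fr_int hn h0 h1
  rw [← Ioc_union_Ioi_eq_Ioi (zero_le_one : (0 : ℝ) ≤ 1), setIntegral_union (Ioc_disjoint_Ioi le_rfl)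
    measurableSet_Ioi (hint.mono_set Ioc_subset_Ioi_self) (hint.mono_set (Ioi_subset_Ioi zero_le_one)),
    Pool.Agent.Q153.BD.base hn h0 hs1]
  have e1 : ∫ y in Ioc (0 : ℝ) 1, ((Int.fract (y / (n : ℝ)) : ℝ) : ℂ) * (y : ℂ) ^ (-s - 1) =
      ∫ y in Ioc (0 : ℝ) 1, 1 / (n : ℂ) * (y : ℂ) ^ (-s) := by
    rw [integral_Ioc_eq_integral_Ioo, integral_Ioc_eq_integral_Ioo]
    refine setIntegral_congr_fun measurableSet_Ioo fun y hy => ?_
    have hy0 : (0 : ℝ) < y := hy.1
    have hyc : (y : ℂ) ≠ 0 := by exact_mod_cast hy0.ne'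
    have hf : Int.fract (y / (n : ℝ)) = y / n :=
      Int.fract_eq_self.mpr ⟨by positivity, (div_lt_one hn0).mpr (by linarith [hy.2])⟩
    rw [hf, show (-s - 1) = -s + (-1) by ring, Complex.cpow_add _ _ hyc, Complex.cpow_neg_one]
    push_cast
    field_simp
  rw [e1, integral_const_mul, ← intervalIntegral.integral_of_le zero_le_one, integral_cpow]
  · have hs2 : -s + 1 ≠ 0 := by
      intro h
      apply hs1
      linear_combination -h
    have hs3 : 1 - s ≠ 0 := by
      intro h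
      apply hs2
      linear_combination h
    rw [ofReal_one, one_cpow, ofReal_zero, zero_cpow hs2]
    have hnc : (n : ℂ) ≠ 0 := by exact_mod_cast hn0.ne'
    have hs0 : s ≠ 0 := by
      intro h
      rw [h] at h0
      simp at h0
    rw [show -s + 1 = 1 - s by ring]
    field_simp
    ring
  · left
    simp
    exact h1

/-- Mellin transform of `x ↦ {1/(nx)}` -/
theorem fr_hasMellin {n : ℕ} (hn : 1 ≤ n) {s : ℂ} (h0 : 0 < s.re) (h1 : s.re < 1) :
    HasMellin (fun x : ℝ => ((Int.fract (1 / ((n : ℝ) * x)) : ℝ) : ℂ)) s (-((n : ℂ) ^ (-s) * riemannZeta s / s)) := by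
  set F : ℝ → ℂ := fun y => ((Int.fract (y / (n : ℝ)) : ℝ) : ℂ) with hF
  have e0 : (fun x : ℝ => ((Int.fract (1 / ((n : ℝ) * x)) : ℝ) : ℂ)) = fun x : ℝ => F (x⁻¹) := by
    ext x
    simp only [hF]
    congr 2
    rw [one_div, mul_inv, div_eq_mul_inv, mul_comm]
  have e1 : (fun x : ℝ => F (x⁻¹)) = fun x : ℝ => F (x ^ (-1 : ℝ)) := by
    ext x
    rw [Real.rpow_neg_one]
  have hconv : MellinConvergent F (-s) := by
    refine (fr_int hn h0 h1).congr (Eventually.of_forall fun y => ?_)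
    simp only [hF, smul_eq_mul]
    ring
  constructor
  · rw [e0, e1]
    rw [MellinConvergent.comp_rpow (by norm_num)]
    have : s / ((-1 : ℝ) : ℂ) = -s := by
      push_cast
      rw [div_neg, div_one]
    rw [this]
    exact hconv
  · rw [e0, mellin_comp_inv, mellin, ← fr_mel hn h0 h1]
    refine setIntegral_congr_fun measurableSet_Ioi fun y _ => ?_
    simp only [hF, smul_eq_mul]
    ring

theorem cl_re (t : ℝ) : (cl t).re = 1 / 2 := by simp [cl]

theorem cl_im (t : ℝ) : (cl t).im = t := by simp [cl]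

theorem cl_ne (t : ℝ) : cl t ≠ 0 := by
  intro h
  have := cl_re t
  rw [h] at this
  norm_num at this

theorem cl_norm (t : ℝ) : ‖cl t‖ ^ 2 = 1 / 4 + t ^ 2 := by
  rw [← Complex.normSq_eq_norm_sq, Complex.normSq_apply, cl_re, cl_im]
  ring

/-- the Mellin transform of the difference -/
theorem dif_mellin (N : ℕ) (a : ℕ → ℂ) (t : ℝ) :
    mellin (difC N a) (cl t) =
      (1 + riemannZeta (cl t) * ∑ n ∈ Finset.Icc 1 N, a n * (n : ℂ) ^ (-cl t)) / cl t := by
  have hre := cl_re t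
  have h1 : HasMellin (indicator (Ioc 0 1) (fun _ => 1 : ℝ → ℂ)) (cl t) (1 / cl t) :=
    hasMellin_one_Ioc (by rw [hre]; norm_num)
  have h2 : ∀ n ∈ Finset.Icc 1 N, HasMellin (fun x : ℝ => ((Int.fract (1 / ((n : ℝ) * x)) : ℝ) : ℂ)) (cl t)
      (-((n : ℂ) ^ (-cl t) * riemannZeta (cl t) / cl t)) := fun n hn =>
    fr_hasMellin (Finset.mem_Icc.1 hn).1 (by rw [hre]; norm_num) (by rw [hre]; norm_num)
  unfold mellin
  have e1 : ∀ x ∈ Ioi (0 : ℝ), (x : ℂ) ^ (cl t - 1) • difC N a x =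
      (x : ℂ) ^ (cl t - 1) • indicator (Ioc 0 1) (fun _ => 1 : ℝ → ℂ) x -
        ∑ n ∈ Finset.Icc 1 N, a n * ((x : ℂ) ^ (cl t - 1) • ((Int.fract (1 / ((n : ℝ) * x)) : ℝ) : ℂ)) := by
    intro x hx
    have hx0 : 0 < x := hx
    unfold difC
    have e2 : indicator (Ioc 0 1) (fun _ => 1 : ℝ → ℂ) x = (((if x ≤ 1 then 1 else 0 : ℝ)) : ℂ) := by
      by_cases h : x ≤ 1
      · have hmem : x ∈ Ioc (0 : ℝ) 1 := ⟨hx0, h⟩
        rw [indicator_of_mem hmem, if_pos h]
        simp
      · rw [indicator_of_notMem (fun hm => h hm.2), if_neg h]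
        simp
    rw [e2, smul_sub]
    congr 1
    rw [Finset.smul_sum]
    refine Finset.sum_congr rfl fun n _ => ?_
    simp only [smul_eq_mul]
    ring
  rw [setIntegral_congr_fun measurableSet_Ioi e1, integral_sub, integral_finset_sum]
  · have e3 : ∀ n ∈ Finset.Icc 1 N, ∫ x in Ioi (0 : ℝ),
        a n * ((x : ℂ) ^ (cl t - 1) • ((Int.fract (1 / ((n : ℝ) * x)) : ℝ) : ℂ)) =
        a n * (-((n : ℂ) ^ (-cl t) * riemannZeta (cl t) / cl t)) := by
      intro n hn
      rw [integral_const_mul]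
      congr 1
      exact (h2 n hn).2
    rw [Finset.sum_congr rfl e3]
    have e4 := h1.2
    unfold mellin at e4
    rw [e4, add_div, sub_eq_add_neg, ← Finset.sum_neg_distrib, Finset.mul_sum, Finset.sum_div]
    congr 1
    refine Finset.sum_congr rfl fun n _ => ?_
    ring
  · intro n hn
    exact ((h2 n hn).1).const_mul _
  · exact h1.1
  · apply integrable_finset_sum
    intro n hn
    exact ((h2 n hn).1).const_mul _

theorem difC_meas (N : ℕ) (a : ℕ → ℂ) : Measurable (difC N a) := by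
  unfold difC
  refine Measurable.sub ?_ ?_
  · exact Complex.measurable_ofReal.comp (Measurable.ite measurableSet_Iic measurable_const measurable_const)
  · refine Finset.measurable_fun_sum _ fun n _ => ?_
    refine Measurable.const_mul ?_ _
    refine Complex.measurable_ofReal.comp (Measurable.fract ?_)
    fun_prop

theorem difC_bd (N : ℕ) (a : ℕ → ℂ) (x : ℝ) : ‖difC N a x‖ ≤ 1 + ∑ n ∈ Finset.Icc 1 N, ‖a n‖ := by
  unfold difC
  refine (norm_sub_le _ _).trans (add_le_add ?_ ?_)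
  · rw [Complex.norm_real]
    split_ifs <;> norm_num
  · refine (norm_sum_le _ _).trans (Finset.sum_le_sum fun n _ => ?_)
    rw [norm_mul, Complex.norm_real, Real.norm_eq_abs, Int.abs_fract]
    exact mul_le_of_le_one_right (norm_nonneg _) (Int.fract_lt_one _).le

theorem difC_right (N : ℕ) (a : ℕ → ℂ) {x : ℝ} (hx : 1 < x) :
    ‖difC N a x‖ ≤ (1 + ∑ n ∈ Finset.Icc 1 N, ‖a n‖) / x := by
  have hx0 : 0 < x := by linarith
  unfold difC
  rw [if_neg (not_le.2 hx), ofReal_zero, zero_sub, norm_neg, add_div, Finset.sum_div]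
  have h1 : ‖∑ n ∈ Finset.Icc 1 N, a n * ((Int.fract (1 / ((n : ℝ) * x)) : ℝ) : ℂ)‖ ≤
      ∑ n ∈ Finset.Icc 1 N, ‖a n‖ / x := by
    refine (norm_sum_le _ _).trans (Finset.sum_le_sum fun n hn => ?_)
    rw [Finset.mem_Icc] at hn
    have hn1 : (1 : ℝ) ≤ n := by exact_mod_cast hn.1
    have h1 : Int.fract (1 / ((n : ℝ) * x)) = 1 / (n * x) := by
      rw [Int.fract_eq_self]
      refine ⟨by positivity, ?_⟩
      rw [div_lt_one (by positivity)]
      nlinarith
    rw [norm_mul, Complex.norm_real, h1, Real.norm_eq_abs, abs_of_pos (by positivity), div_eq_mul_one_div ‖a n‖ x]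
    apply mul_le_mul_of_nonneg_left _ (norm_nonneg _)
    apply one_div_le_one_div_of_le hx0
    nlinarith
  have h2 : 0 ≤ 1 / x := by positivity
  linarith

/-- the function on the line -/
noncomputable def GG (N : ℕ) (a : ℕ → ℂ) (u : ℝ) : ℂ := Real.exp (-(1 / 2) * u) • difC N a (Real.exp (-u))

theorem GG_bd (N : ℕ) (a : ℕ → ℂ) (u : ℝ) :
    ‖GG N a u‖ ≤ (1 + ∑ n ∈ Finset.Icc 1 N, ‖a n‖) * Real.exp (-(1 / 2 * |u|)) := by
  have hB : 0 ≤ 1 + ∑ n ∈ Finset.Icc 1 N, ‖a n‖ := by positivity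
  unfold GG
  rw [norm_smul, Real.norm_eq_abs, abs_of_pos (Real.exp_pos _)]
  rcases le_or_gt 0 u with h | h
  · rw [abs_of_nonneg h, mul_comm]
    have : -(1 / 2) * u = -(1 / 2 * u) := by ring
    rw [this]
    apply mul_le_mul_of_nonneg_right (difC_bd N a _) (Real.exp_pos _).le
  · rw [abs_of_neg h]
    have h1 : 1 < Real.exp (-u) := Real.one_lt_exp_iff.2 (by linarith)
    have h2 := difC_right N a h1
    calc Real.exp (-(1 / 2) * u) * ‖difC N a (Real.exp (-u))‖
        ≤ Real.exp (-(1 / 2) * u) * ((1 + ∑ n ∈ Finset.Icc 1 N, ‖a n‖) / Real.exp (-u)) := by gcongr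
      _ = (1 + ∑ n ∈ Finset.Icc 1 N, ‖a n‖) * (Real.exp (-(1 / 2) * u) / Real.exp (-u)) := by ring
      _ = (1 + ∑ n ∈ Finset.Icc 1 N, ‖a n‖) * Real.exp (-(1 / 2 * -u)) := by
          rw [← Real.exp_sub]
          congr 2
          ring

theorem exp_abs_int {b : ℝ} (hb : 0 < b) : Integrable (fun u : ℝ => Real.exp (-(b * |u|))) := by
  rw [← integrableOn_univ, ← Iic_union_Ioi (a := (0 : ℝ))]
  refine IntegrableOn.union ?_ ?_
  · rw [integrableOn_Iic_iff_integrableOn_Iio]
    have h1 : IntegrableOn (fun u : ℝ => Real.exp (b * u)) (Iio 0) := by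
      have := integrableOn_exp_mul_Iic hb 0
      exact this.mono_set Iio_subset_Iic_self
    refine h1.congr_fun (fun u hu => ?_) measurableSet_Iio
    have hu0 : u < 0 := hu
    simp only
    rw [abs_of_neg hu0]
    congr 1
    ring
  · have h1 : IntegrableOn (fun u : ℝ => Real.exp (-b * u)) (Ioi 0) :=
      integrableOn_exp_mul_Ioi (by linarith) 0
    refine h1.congr_fun (fun u hu => ?_) measurableSet_Ioi
    have hu0 : 0 < u := hu
    simp only
    rw [abs_of_pos hu0]
    congr 1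
    ring

theorem GG_meas (N : ℕ) (a : ℕ → ℂ) : Measurable (GG N a) := by
  have h1 : Measurable (fun u : ℝ => Real.exp (-(1 / 2) * u)) := by fun_prop
  have h2 : Measurable (fun u : ℝ => difC N a (Real.exp (-u))) :=
    (difC_meas N a).comp (by fun_prop)
  exact h1.smul h2

theorem GG_int (N : ℕ) (a : ℕ → ℂ) : Integrable (GG N a) :=
  Integrable.mono' ((exp_abs_int (b := 1 / 2) (by norm_num)).const_mul _) (GG_meas N a).aestronglyMeasurable
    (Eventually.of_forall fun u => GG_bd N a u)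

theorem GG_sq (N : ℕ) (a : ℕ → ℂ) : Integrable (fun u => ‖GG N a u‖ ^ 2) := by
  have h1 := (exp_abs_int (b := 1) (by norm_num)).const_mul ((1 + ∑ n ∈ Finset.Icc 1 N, ‖a n‖) ^ 2)
  refine Integrable.mono' h1 ((GG_meas N a).norm.pow_const 2).aestronglyMeasurable
    (Eventually.of_forall fun u => ?_)
  rw [Real.norm_eq_abs, abs_of_nonneg (by positivity)]
  have h2 := GG_bd N a u
  calc ‖GG N a u‖ ^ 2 ≤ ((1 + ∑ n ∈ Finset.Icc 1 N, ‖a n‖) * Real.exp (-(1 / 2 * |u|))) ^ 2 :=
        pow_le_pow_left₀ (norm_nonneg _) h2 2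
    _ = (1 + ∑ n ∈ Finset.Icc 1 N, ‖a n‖) ^ 2 * Real.exp (-(1 * |u|)) := by
        rw [mul_pow, ← Real.exp_nat_mul]
        congr 2
        push_cast
        ring

theorem GG_mem (N : ℕ) (a : ℕ → ℂ) : MemLp (GG N a) 2 :=
  (memLp_two_iff_integrable_sq_norm (GG_meas N a).aestronglyMeasurable).2 (GG_sq N a)

/-- the substitution -/
theorem exp_image : (fun u : ℝ => Real.exp (-u)) '' univ = Ioi 0 := by
  ext y
  constructor
  · rintro ⟨u, -, rfl⟩
    exact Real.exp_pos _
  · intro hy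
    exact ⟨-Real.log y, mem_univ _, by simp [Real.exp_log hy]⟩

theorem exp_sub_int (f : ℝ → ℝ) : (IntegrableOn f (Ioi 0) ↔
    Integrable (fun u : ℝ => Real.exp (-u) * f (Real.exp (-u)))) ∧
    ∫ x in Ioi (0 : ℝ), f x = ∫ u : ℝ, Real.exp (-u) * f (Real.exp (-u)) := by
  have hd : ∀ u ∈ (univ : Set ℝ), HasDerivWithinAt (fun u : ℝ => Real.exp (-u)) (-Real.exp (-u)) univ u := by
    intro u _
    have h1 : HasDerivAt (fun u : ℝ => Real.exp (-u)) (-Real.exp (-u)) u := by
      have := (hasDerivAt_neg u).exp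
      simpa using this
    exact h1.hasDerivWithinAt
  have hinj : InjOn (fun u : ℝ => Real.exp (-u)) univ := by
    intro u _ v _ huv
    have := Real.exp_injective huv
    linarith
  have hab : ∀ u : ℝ, |-Real.exp (-u)| = Real.exp (-u) := by
    intro u
    rw [abs_neg, abs_of_pos (Real.exp_pos _)]
  constructor
  · have h := integrableOn_image_iff_integrableOn_abs_deriv_smul MeasurableSet.univ hd hinj f
    rw [exp_image, integrableOn_univ] at h
    rw [h]
    simp only [hab, smul_eq_mul]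
  · have h := integral_image_eq_integral_abs_deriv_smul MeasurableSet.univ hd hinj f
    rw [exp_image, setIntegral_univ] at h
    rw [h]
    simp only [hab, smul_eq_mul]

theorem sq_eq (N : ℕ) (a : ℕ → ℂ) (u : ℝ) :
    Real.exp (-u) * ‖difC N a (Real.exp (-u))‖ ^ 2 = ‖GG N a u‖ ^ 2 := by
  unfold GG
  rw [norm_smul, Real.norm_eq_abs, abs_of_pos (Real.exp_pos _), mul_pow, ← Real.exp_nat_mul]
  congr 2
  push_cast
  ring

theorem four_eq (N : ℕ) (a : ℕ → ℂ) (t : ℝ) :
    𝓕 (GG N a) (t / (2 * π)) =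
      (1 + riemannZeta (cl t) * ∑ n ∈ Finset.Icc 1 N, a n * (n : ℂ) ^ (-cl t)) / cl t := by
  rw [← dif_mellin, mellin_eq_fourier, cl_re, cl_im]
  rfl

/-- **Plancherel** -/
theorem mel : S_mel := by
  intro N a hN
  obtain ⟨hm, hpl⟩ := Pool.Agent.Helper625.Planch.plancherel (GG N a) (GG_int N a) (GG_mem N a)
  have hFi : Integrable (fun w : ℝ => ‖𝓕 (GG N a) w‖ ^ 2) := by
    have hmeas := hm.aestronglyMeasurable
    exact (memLp_two_iff_integrable_sq_norm hmeas).1 hm
  have e1 : ∀ t : ℝ, ‖1 + riemannZeta (cl t) * ∑ n ∈ Finset.Icc 1 N, a n * (n : ℂ) ^ (-cl t)‖ ^ 2 /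
      (1 / 4 + t ^ 2) = (fun w : ℝ => ‖𝓕 (GG N a) w‖ ^ 2) (t / (2 * π)) := by
    intro t
    simp only
    rw [four_eq, norm_div, div_pow, cl_norm]
  have hpi := Real.pi_pos
  refine ⟨?_, ?_, ?_⟩
  · simp only [e1]
    exact hFi.comp_div (by positivity)
  · rw [(exp_sub_int (fun x : ℝ => ‖difC N a x‖ ^ 2)).1]
    simp only [sq_eq]
    exact GG_sq N a
  · rw [(exp_sub_int (fun x : ℝ => ‖difC N a x‖ ^ 2)).2]
    simp only [sq_eq, e1]
    rw [Measure.integral_comp_div (fun w : ℝ => ‖𝓕 (GG N a) w‖ ^ 2) (2 * π), ← hpl,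
      abs_of_pos (by positivity), smul_eq_mul]
    field_simp

end Pool.Agent.Q237.BD
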